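import Mathlib
import Pool.Agent.H76.CR.Defs
import Pool.Agent.H6.Win.Hfun
import Pool.Agent.H76.VK.Richert

/-!
# Grow: growth of `zetaPole` around `1 + a + it` from Richert's bound

`‖zetaPole z‖ = ‖z-1‖ ‖ζ z‖`, `‖z-1‖ ≤ (1 + R/a) ‖c-1‖` because `‖c-1‖ ≥ a`, and
`1/‖ζ(1+a+it)‖ ≤ ζ(1+a) ≤ C/a`.  `|Im z| ≥ 2`: Richert; `|Im z| < 2`: `‖zetaPole z‖ ≤ 2(1+‖z‖)^2` and
`‖zetaPole c‖ ≥ a^2/C`.
-/

set_option autoImplicit false

open Complex Metric

namespace Pool.Agent.H52.RK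

open Pool.Agent.H6 Pool.Agent.H6.Win Pool.Agent.H76.CR

/-- size of `∑ n^(-(1+a))` -/
private lemma tsum_le {a : ℝ} (ha : 0 < a) (ha1 : a ≤ 1) :
    ∑' n : ℕ, 1 / (n : ℝ) ^ (1 + a) ≤ 18 / a := by
  have h5 : riemannZeta ((1 + a : ℝ) : ℂ) = ((∑' n : ℕ, 1 / (n : ℝ) ^ (1 + a) : ℝ) : ℂ) := by
    rw [zeta_eq_tsum_one_div_nat_cpow (by rw [ofReal_re]; linarith), ofReal_tsum]
    congr 1
    funext n
    rw [ofReal_div, ofReal_one, ofReal_cpow (Nat.cast_nonneg n), ofReal_natCast]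
  have h4 : (∑' n : ℕ, 1 / (n : ℝ) ^ (1 + a)) = ‖riemannZeta ((1 + a : ℝ) : ℂ)‖ := by
    rw [h5, norm_real, Real.norm_of_nonneg (tsum_nonneg fun n => by positivity)]
  have h7 := norm_zetaPole_le (s := ((1 + a : ℝ) : ℂ)) (by rw [ofReal_re]; linarith)
  have h8 : zetaPole ((1 + a : ℝ) : ℂ) =
      (((1 + a : ℝ) : ℂ) - 1) * riemannZeta ((1 + a : ℝ) : ℂ) := by
    rw [zetaPole_of_ne]
    intro h
    have : (1 + a : ℝ) = 1 := by exact_mod_cast h
    linarith
  rw [h8, norm_mul] at h7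
  have h9 : ‖((1 + a : ℝ) : ℂ) - 1‖ = a := by
    rw [← ofReal_one, ← ofReal_sub, norm_real, Real.norm_of_nonneg (by linarith)]
    ring
  have h10 : ‖((1 + a : ℝ) : ℂ)‖ = 1 + a := by
    rw [norm_real, Real.norm_of_nonneg (by linarith)]
  rw [h9, h10] at h7
  rw [h4, le_div_iff₀ ha]
  nlinarith

/-- lower bound for `zetaPole` at `c = 1 + a + it` -/
private lemma low {a : ℝ} (ha : 0 < a) (ha1 : a ≤ 1) (t : ℝ) :
    a ≤ ‖pt a t - 1‖ ∧ 1 ≤ 18 / a * ‖riemannZeta (pt a t)‖ ∧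
      ‖zetaPole (pt a t)‖ = ‖pt a t - 1‖ * ‖riemannZeta (pt a t)‖ := by
  set K0 : ℝ := ∑' n : ℕ, 1 / (n : ℝ) ^ (1 + a) with hK0
  have hK1 : K0 ≤ 18 / a := tsum_le ha ha1
  set c : ℂ := pt a t with hc
  have hcre : c.re = 1 + a := by rw [hc, pt]; simp
  have h3 := norm_inv_riemannZeta_le (s := c) (x := 1 + a) (by linarith) (by rw [hcre])
  have hcne : c ≠ 1 := by
    intro h; rw [h] at hcre; simp at hcre; linarith
  have hζ : riemannZeta c ≠ 0 := riemannZeta_ne_zero_of_one_le_re (by rw [hcre]; linarith)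
  have h4 : zetaPole c = (c - 1) * riemannZeta c := zetaPole_of_ne hcne
  have h5 : a ≤ ‖c - 1‖ := by
    have := Complex.abs_re_le_norm (c - 1)
    rw [Complex.sub_re, hcre, Complex.one_re] at this
    have h6 : |1 + a - 1| = a := by rw [add_sub_cancel_left, abs_of_pos ha]
    rw [h6] at this
    exact this
  refine ⟨h5, ?_, by rw [h4, norm_mul]⟩
  rw [norm_inv] at h3
  have hpos : 0 < ‖riemannZeta c‖ := norm_pos_iff.2 hζ
  have h7 : 1 ≤ K0 * ‖riemannZeta c‖ := by
    rw [inv_le_iff_one_le_mul₀ hpos] at h3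
    exact h3
  exact h7.trans (mul_le_mul_of_nonneg_right hK1 hpos.le)

theorem grow : ∃ C : ℝ, 1 ≤ C ∧ ∀ a R t : ℝ, 0 < a → a ≤ 1 → 0 ≤ R → R ≤ 1 / 2 →
    ∀ z ∈ closedBall (pt a t) R, ‖zetaPole z‖ ≤
      Real.exp (C * (R ^ (3 / 2 : ℝ) * Real.log (|t| + 2) + Real.log (Real.log (|t| + 3)) +
        Real.log (1 / a) + 1)) * ‖zetaPole (pt a t)‖ := by
  obtain ⟨B, C0, hB, hC0, hR0⟩ := Pool.Agent.H76.VK.richert
  refine ⟨B + Real.log (36 * C0) + 10, by
    have : 0 ≤ Real.log (36 * C0) := Real.log_nonneg (by linarith)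
    linarith, ?_⟩
  set C : ℝ := B + Real.log (36 * C0) + 10 with hC
  intro a R t ha ha1 hR hR2 z hz
  have hlC : 0 ≤ Real.log (36 * C0) := Real.log_nonneg (by linarith)
  obtain ⟨l1, l2, l3⟩ := low ha ha1 t
  set c : ℂ := pt a t with hc
  have hcre : c.re = 1 + a := by rw [hc, pt]; simp
  have hcim : c.im = t := by rw [hc, pt]; simp
  rw [mem_closedBall, dist_eq_norm] at hz
  have hre : 1 - R ≤ z.re := by
    have h1 := (Complex.abs_re_le_norm (z - c)).trans hz
    rw [Complex.sub_re, hcre, abs_le] at h1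
    linarith [h1.1]
  have him : |z.im| ≤ |t| + R := by
    have h1 := (Complex.abs_im_le_norm (z - c)).trans hz
    rw [Complex.sub_im, hcim] at h1
    have h2 : |z.im| ≤ |z.im - t| + |t| := by
      calc |z.im| = |(z.im - t) + t| := by rw [sub_add_cancel]
        _ ≤ _ := abs_add_le _ _
    linarith
  have ht0 := abs_nonneg t
  have hla : 0 ≤ Real.log (1 / a) := Real.log_nonneg (by rw [le_div_iff₀ ha]; linarith)
  have hlt : 0 ≤ Real.log (|t| + 2) := Real.log_nonneg (by linarith)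
  have hl3 : 1 ≤ Real.log (|t| + 3) := by
    rw [Real.le_log_iff_exp_le (by linarith)]
    have := Real.exp_one_lt_d9
    linarith
  have hll : 0 ≤ Real.log (Real.log (|t| + 3)) := Real.log_nonneg hl3
  have hRp : 0 ≤ R ^ (3 / 2 : ℝ) := Real.rpow_nonneg hR _
  set X : ℝ := R ^ (3 / 2 : ℝ) * Real.log (|t| + 2) with hX
  have hX0 : 0 ≤ X := by positivity
  set Y : ℝ := Real.log (Real.log (|t| + 3)) with hY
  set Z : ℝ := Real.log (1 / a) with hZ
  have hZc : ‖zetaPole c‖ = ‖c - 1‖ * ‖riemannZeta c‖ := l3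
  have hcn0 : 0 < ‖c - 1‖ := lt_of_lt_of_le ha l1
  have hζ0 : 0 ≤ ‖riemannZeta c‖ := norm_nonneg _
  have hexpZ : Real.exp Z = 1 / a := Real.exp_log (by positivity)
  by_cases h2 : 2 ≤ |z.im|
  · -- Richert
    have hr := hR0 z (by linarith) h2
    have hzne : z ≠ 1 := by
      intro h
      rw [h] at h2
      simp at h2
      linarith
    have hz1 : zetaPole z = (z - 1) * riemannZeta z := zetaPole_of_ne hzne
    have him0 : 0 < |z.im| := by linarith
    have hmax : max (1 - z.re) 0 ≤ R := max_le (by linarith) hR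
    have hmp : max (1 - z.re) 0 ^ (3 / 2 : ℝ) ≤ R ^ (3 / 2 : ℝ) :=
      Real.rpow_le_rpow (le_max_right _ _) hmax (by norm_num)
    have hp1 : |z.im| ^ (B * max (1 - z.re) 0 ^ (3 / 2 : ℝ)) ≤ Real.exp (B * X) := by
      rw [Real.rpow_def_of_pos him0]
      apply Real.exp_le_exp.2
      have e1 : Real.log |z.im| ≤ Real.log (|t| + 2) := Real.log_le_log him0 (by linarith)
      have e2 : 0 ≤ Real.log |z.im| := Real.log_nonneg (by linarith)
      calc Real.log |z.im| * (B * max (1 - z.re) 0 ^ (3 / 2 : ℝ))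
          ≤ Real.log (|t| + 2) * (B * R ^ (3 / 2 : ℝ)) := by gcongr
        _ = B * X := by rw [hX]; ring
    have hp2 : Real.log |z.im| ≤ Real.exp Y := by
      rw [hY, Real.exp_log (by linarith)]
      exact Real.log_le_log him0 (by linarith)
    have hlz0 : 0 ≤ Real.log |z.im| := Real.log_nonneg (by linarith)
    have hr2 : ‖riemannZeta z‖ ≤ C0 * Real.exp (B * X) * Real.exp Y := by
      refine hr.trans ?_
      gcongr
    have hn1 : ‖z - 1‖ ≤ (2 / a) * ‖c - 1‖ := by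
      have e1 : ‖z - 1‖ ≤ R + ‖c - 1‖ := by
        calc ‖z - 1‖ = ‖(z - c) + (c - 1)‖ := by congr 1; ring
          _ ≤ ‖z - c‖ + ‖c - 1‖ := norm_add_le _ _
          _ ≤ _ := by linarith
      have e2 : R ≤ (1 / a) * ‖c - 1‖ := by
        have : 1 ≤ (1 / a) * ‖c - 1‖ := by
          rw [one_div, ← div_eq_inv_mul, le_div_iff₀ ha]
          linarith
        linarith
      have e3 : ‖c - 1‖ ≤ (1 / a) * ‖c - 1‖ := by
        have : 1 ≤ 1 / a := by rw [le_div_iff₀ ha]; linarith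
        nlinarith
      calc ‖z - 1‖ ≤ (1 / a) * ‖c - 1‖ + (1 / a) * ‖c - 1‖ := by linarith
        _ = _ := by ring
    rw [hz1, norm_mul, hZc]
    have hC0p : 0 < C0 := by linarith
    calc ‖z - 1‖ * ‖riemannZeta z‖
        ≤ ((2 / a) * ‖c - 1‖) * (C0 * Real.exp (B * X) * Real.exp Y) := by gcongr
      _ = ((2 / a) * ‖c - 1‖) * (C0 * Real.exp (B * X) * Real.exp Y) * 1 := by ring
      _ ≤ ((2 / a) * ‖c - 1‖) * (C0 * Real.exp (B * X) * Real.exp Y) *
          (18 / a * ‖riemannZeta c‖) := by gcongr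
      _ = (36 * C0) * (1 / a) * (1 / a) * Real.exp (B * X) * Real.exp Y *
          (‖c - 1‖ * ‖riemannZeta c‖) := by ring
      _ = Real.exp (Real.log (36 * C0)) * Real.exp Z * Real.exp Z * Real.exp (B * X) *
          Real.exp Y * (‖c - 1‖ * ‖riemannZeta c‖) := by
          rw [hexpZ, show Real.exp (Real.log (36 * C0)) = 36 * C0 from Real.exp_log (by linarith)]
      _ = Real.exp (Real.log (36 * C0) + Z + Z + B * X + Y) *
          (‖c - 1‖ * ‖riemannZeta c‖) := by
          rw [← Real.exp_add, ← Real.exp_add, ← Real.exp_add, ← Real.exp_add]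
      _ ≤ Real.exp (C * (X + Y + Z + 1)) * (‖c - 1‖ * ‖riemannZeta c‖) := by
          apply mul_le_mul_of_nonneg_right _ (by positivity)
          apply Real.exp_le_exp.2
          have f1 : B * X ≤ C * X := mul_le_mul_of_nonneg_right (by linarith) hX0
          have f2 : 1 * Y ≤ C * Y := mul_le_mul_of_nonneg_right (by linarith) hll
          have f3 : 2 * Z ≤ C * Z := mul_le_mul_of_nonneg_right (by linarith) hla
          have f4 : C * (X + Y + Z + 1) = C * X + C * Y + C * Z + C := by ring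
          linarith
  · -- small ordinates
    push Not at h2
    have hzn : ‖z‖ ≤ 9 / 2 := by
      have e1 := Complex.norm_le_abs_re_add_abs_im z
      have e2 : |z.re| ≤ 5 / 2 := by
        rw [abs_le]
        have h1 := (Complex.abs_re_le_norm (z - c)).trans hz
        rw [Complex.sub_re, hcre, abs_le] at h1
        constructor <;> linarith [h1.1, h1.2]
      linarith
    have hz2 := norm_zetaPole_le (s := z) (by linarith)
    have hz3 : ‖zetaPole z‖ ≤ 61 := by
      refine hz2.trans ?_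
      have h0 := norm_nonneg z
      nlinarith
    have hlow : 1 ≤ 18 / a * (1 / a) * ‖zetaPole c‖ := by
      rw [hZc]
      have e1 : 1 ≤ (1 / a) * ‖c - 1‖ := by
        rw [one_div, ← div_eq_inv_mul, le_div_iff₀ ha]
        linarith
      calc (1 : ℝ) = 1 * 1 := by ring
        _ ≤ (18 / a * ‖riemannZeta c‖) * ((1 / a) * ‖c - 1‖) :=
            mul_le_mul l2 e1 zero_le_one (by linarith)
        _ = _ := by ring
    have hzc0 : 0 ≤ ‖zetaPole c‖ := norm_nonneg _
    have hnum : (61 : ℝ) * 18 ≤ Real.exp 8 := by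
      have := Real.exp_one_gt_d9
      have h8 : Real.exp 8 = Real.exp 1 ^ 8 := by rw [← Real.exp_nat_mul]; norm_num
      rw [h8]
      calc (61 : ℝ) * 18 ≤ 2.7 ^ 8 := by norm_num
        _ ≤ Real.exp 1 ^ 8 := by gcongr; linarith
    calc ‖zetaPole z‖ ≤ 61 * 1 := by linarith
      _ ≤ 61 * (18 / a * (1 / a) * ‖zetaPole c‖) := by gcongr
      _ = (61 * 18) * (1 / a) * (1 / a) * ‖zetaPole c‖ := by ring
      _ ≤ Real.exp 8 * Real.exp Z * Real.exp Z * ‖zetaPole c‖ := by
          rw [hexpZ]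
          gcongr
      _ = Real.exp (8 + Z + Z) * ‖zetaPole c‖ := by rw [← Real.exp_add, ← Real.exp_add]
      _ ≤ Real.exp (C * (X + Y + Z + 1)) * ‖zetaPole c‖ := by
          apply mul_le_mul_of_nonneg_right _ hzc0
          apply Real.exp_le_exp.2
          have f1 : 0 ≤ C * X := mul_nonneg (by linarith) hX0
          have f2 : 0 ≤ C * Y := mul_nonneg (by linarith) hll
          have f3 : 2 * Z ≤ C * Z := mul_le_mul_of_nonneg_right (by linarith) hla
          have f4 : C * (X + Y + Z + 1) = C * X + C * Y + C * Z + C := by ring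
          linarith

end Pool.Agent.H52.RK
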