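import Mathlib
import Pool.Agent.H76.CR.Defs
import Pool.Agent.H6.Win.Hfun
import Pool.Agent.H6.Unc.LocAn

/-!
# HlocG: local factorisation of `zetaPole` around `1 + a + it` from a growth bound

Copy of `exists_HV` (`H76/SV/HlocV.lean`) with an abstract growth hypothesis.
-/

set_option autoImplicit false

open Complex Metric Filter Topology Set

namespace Pool.Agent.H52.RK

open Pool.Agent.H6 Pool.Agent.H6.Win Pool.Agent.H76.CR

/-- the order of zeros under an affine map -/
private lemma ord_affine (c : ℂ) {r : ℝ} (hr : 0 < r) (w : ℂ) :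
    analyticOrderNatAt (fun w : ℂ => zetaPole (c + (r : ℂ) * w)) w = zord (c + (r : ℂ) * w) := by
  have hrc : (r : ℂ) ≠ 0 := by exact_mod_cast hr.ne'
  set g : ℂ → ℂ := fun w => c + (r : ℂ) * w with hg
  have hgd : HasDerivAt g (r : ℂ) w := by
    have h := ((hasDerivAt_id w).const_mul (r : ℂ)).const_add c
    rw [mul_one] at h
    exact h
  have hga : AnalyticAt ℂ g w := by
    rw [hg]
    fun_prop
  have h := analyticOrderAt_comp_of_deriv_ne_zero (f := zetaPole) hga (by rw [hgd.deriv]; exact hrc)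
  have h2 : (fun w : ℂ => zetaPole (c + (r : ℂ) * w)) = zetaPole ∘ g := rfl
  unfold zord analyticOrderNatAt
  rw [h2, h]

theorem exists_HG {η : ℝ} (hη : 0 < η) :
    ∃ C : ℝ, 0 < C ∧ ∀ a r t G : ℝ, 0 < a → 0 < r → 0 < G →
      (∀ z ∈ closedBall (pt a t) ((1 + η) * r),
        ‖zetaPole z‖ ≤ Real.exp G * ‖zetaPole (pt a t)‖) →
      ∃ (S : Finset ℂ) (H : ℂ → ℂ),
        (∀ u, u ∈ S ↔ (u ∈ closedBall (pt a t) ((1 + η / 2) * r) ∧ zetaPole u = 0)) ∧
        (∀ u ∈ S, 1 ≤ zord u) ∧
        (∑ u ∈ S, (zord u : ℝ)) ≤ C * G ∧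
        DifferentiableOn ℂ H (ball (pt a t) ((1 + η / 2) * r)) ∧
        (∀ z ∈ closedBall (pt a t) r, ‖H z‖ ≤ C * G / r) ∧
        ∀ z ∈ ball (pt a t) ((1 + η / 2) * r), zetaPole z ≠ 0 →
          deriv zetaPole z / zetaPole z = ∑ u ∈ S, (zord u : ℂ) / (z - u) + H z := by
  obtain ⟨C1, hC1, hmain⟩ := loc_log_an (R0 := 1) (R1 := 1 + η / 2) (R2 := 1 + η) one_pos
    (by linarith) (by linarith)
  refine ⟨C1, hC1, ?_⟩
  intro a r t G ha hr hG hgrow
  have hrc : (r : ℂ) ≠ 0 := by exact_mod_cast hr.ne'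
  set c : ℂ := pt a t with hc
  have hcre : c.re = 1 + a := by rw [hc, pt]; simp
  set f : ℂ → ℂ := fun w => zetaPole (c + (r : ℂ) * w) with hf
  have hfa : ∀ w, AnalyticAt ℂ f w := by
    intro w
    have h1 : AnalyticAt ℂ (fun w : ℂ => c + (r : ℂ) * w) w := by fun_prop
    exact (zetaPole_analyticAt _).comp h1
  have hf0 : f 0 = zetaPole c := by
    rw [hf]
    simp only
    rw [mul_zero, add_zero]
  have hfc : f 0 ≠ 0 := by
    rw [hf0]
    exact zetaPole_ne_zero_of_one_le (by rw [hcre]; linarith)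
  have hup : ∀ w ∈ closedBall (0:ℂ) (1 + η), ‖f w‖ ≤ Real.exp G * ‖f 0‖ := by
    intro w hw
    rw [mem_closedBall, dist_eq_norm, sub_zero] at hw
    have hz : c + (r : ℂ) * w ∈ closedBall c ((1 + η) * r) := by
      rw [mem_closedBall, dist_eq_norm, add_sub_cancel_left, norm_mul, Complex.norm_real,
        Real.norm_of_nonneg hr.le]
      nlinarith
    rw [hf0]
    exact hgrow _ hz
  obtain ⟨S', H', hS1, hS2, hS3, hS4, hS5, hS6⟩ := hmain f 0 G hG
    (fun w _ => hfa w) hfc hup
  set φ : ℂ → ℂ := fun w => c + (r : ℂ) * w with hφ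
  have hφi : Function.Injective φ := by
    intro x y hxy
    rw [hφ] at hxy
    simp only [add_right_inj] at hxy
    exact mul_left_cancel₀ hrc hxy
  have hφs : ∀ z : ℂ, φ ((z - c) / r) = z := by
    intro z
    rw [hφ]
    simp only
    rw [mul_div_cancel₀ _ hrc, add_sub_cancel]
  have hnw : ∀ (w : ℂ), ‖φ w - c‖ = r * ‖w‖ := by
    intro w
    rw [hφ]
    simp only
    rw [add_sub_cancel_left, norm_mul, Complex.norm_real, Real.norm_of_nonneg hr.le]
  refine ⟨S'.image φ, fun z => H' ((z - c) / r) / r, ?_, ?_, ?_, ?_, ?_, ?_⟩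
  · intro u
    rw [Finset.mem_image]
    constructor
    · rintro ⟨w, hw, rfl⟩
      obtain ⟨h1, h2⟩ := (hS1 w).1 hw
      rw [mem_closedBall, dist_eq_norm, sub_zero] at h1
      refine ⟨?_, h2⟩
      rw [mem_closedBall, dist_eq_norm, hnw]
      nlinarith
    · rintro ⟨h1, h2⟩
      refine ⟨(u - c) / r, (hS1 _).2 ⟨?_, ?_⟩, hφs u⟩
      · rw [mem_closedBall, dist_eq_norm] at h1
        rw [mem_closedBall, dist_eq_norm, sub_zero, norm_div, Complex.norm_real,
          Real.norm_of_nonneg hr.le, div_le_iff₀ hr]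
        exact h1
      · have h3 := hφs u
        have h4 : f ((u - c) / r) = zetaPole (φ ((u - c) / r)) := rfl
        rw [h4, h3]
        exact h2
  · intro u hu
    rw [Finset.mem_image] at hu
    obtain ⟨w, hw, rfl⟩ := hu
    have h1 := hS2 w hw
    rw [hf, ord_affine c hr w] at h1
    exact h1
  · rw [Finset.sum_image (fun x _ y _ h => hφi h)]
    have h1 : ∑ w ∈ S', (zord (φ w) : ℝ) = ∑ w ∈ S', (analyticOrderNatAt f w : ℝ) := by
      refine Finset.sum_congr rfl fun w _ => ?_
      rw [hf, ord_affine c hr w]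
    rw [h1]
    exact hS3
  · intro z hz
    rw [mem_ball, dist_eq_norm] at hz
    have hw : (z - c) / r ∈ ball (0:ℂ) (1 + η / 2) := by
      rw [mem_ball, dist_eq_norm, sub_zero, norm_div, Complex.norm_real,
        Real.norm_of_nonneg hr.le, div_lt_iff₀ hr]
      exact hz
    have h1 : DifferentiableAt ℂ H' ((z - c) / r) :=
      hS4.differentiableAt (isOpen_ball.mem_nhds hw)
    have h2 : DifferentiableAt ℂ (fun z : ℂ => (z - c) / (r : ℂ)) z := by fun_prop
    have h3 : DifferentiableAt ℂ (fun z : ℂ => H' ((z - c) / (r : ℂ))) z := h1.comp z h2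
    exact (h3.div_const _).differentiableWithinAt
  · intro z hz
    rw [mem_closedBall, dist_eq_norm] at hz
    have hw : (z - c) / r ∈ closedBall (0:ℂ) 1 := by
      rw [mem_closedBall, dist_eq_norm, sub_zero, norm_div, Complex.norm_real,
        Real.norm_of_nonneg hr.le, div_le_iff₀ hr, one_mul]
      exact hz
    have h1 := hS5 _ hw
    simp only
    rw [norm_div, Complex.norm_real, Real.norm_of_nonneg hr.le]
    gcongr
  · intro z hz hne
    rw [mem_ball, dist_eq_norm] at hz
    set w : ℂ := (z - c) / r with hwdef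
    have hw : w ∈ ball (0:ℂ) (1 + η / 2) := by
      rw [hwdef, mem_ball, dist_eq_norm, sub_zero, norm_div, Complex.norm_real,
        Real.norm_of_nonneg hr.le, div_lt_iff₀ hr]
      exact hz
    have hφw : φ w = z := hφs z
    have hfw : f w = zetaPole z := by
      have h4 : f w = zetaPole (φ w) := rfl
      rw [h4, hφw]
    have h1 := hS6 w hw (by rw [hfw]; exact hne)
    have hd : deriv f w = (r : ℂ) * deriv zetaPole z := by
      have hgd : HasDerivAt φ (r : ℂ) w := by
        have h := ((hasDerivAt_id w).const_mul (r : ℂ)).const_add c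
        rw [mul_one] at h
        exact h
      have hz' : HasDerivAt zetaPole (deriv zetaPole z) (φ w) := by
        rw [hφw]
        exact (zetaPole_analyticAt z).differentiableAt.hasDerivAt
      have h5 := hz'.comp w hgd
      have h6 : f = zetaPole ∘ φ := rfl
      rw [h6, h5.deriv]
      ring
    rw [hd, hfw] at h1
    have h2 : deriv zetaPole z / zetaPole z = ((r : ℂ) * deriv zetaPole z / zetaPole z) / r := by
      field_simp
    rw [h2, h1, add_div]
    simp only
    congr 1
    rw [Finset.sum_div, Finset.sum_image (fun x _ y _ h => hφi h)]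
    refine Finset.sum_congr rfl fun v _ => ?_
    have h3 : (analyticOrderNatAt f v : ℂ) = (zord (φ v) : ℂ) := by
      rw [hf, ord_affine c hr v]
    have h4 : z - φ v = (r : ℂ) * (w - v) := by
      rw [← hφw, hφ]
      simp only
      ring
    rw [h3, h4, div_div, mul_comm (w - v)]

end Pool.Agent.H52.RK
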