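import Mathlib
import Pool.Agent.H52.RK.HlocG
import Pool.Agent.H76.CR.DkLocal

/-!
# DkLocalG: `Dk` as a sum over the zeros in a disc, from a growth bound

Copy of `Dk_localV` (`H76/SV/DkLocalV.lean`) with the growth hypothesis of `exists_HG`.
-/

set_option autoImplicit false

open Complex Metric Filter Topology Set

namespace Pool.Agent.H52.RK

open Pool.Agent.H6 Pool.Agent.H6.Win Pool.Agent.H76.CR

private lemma iter_inv_subV (k : ℕ) (u s : ℂ) :
    iteratedDeriv k (fun z : ℂ => (z - u)⁻¹) s = (-1) ^ k * (k.factorial : ℂ) / (s - u) ^ (k + 1) := by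
  have h := iteratedDeriv_comp_sub_const k (fun z : ℂ => z⁻¹) u
  rw [h]
  have h2 : iteratedDeriv k (fun z : ℂ => z⁻¹) (s - u)
      = (-1) ^ k * (k.factorial : ℂ) * (s - u) ^ (-1 - k : ℤ) := by
    rw [iteratedDeriv_eq_iterate]
    exact iter_deriv_inv k (s - u)
  show iteratedDeriv k (fun z : ℂ => z⁻¹) (s - u) = _
  rw [h2, div_eq_mul_inv]
  congr 1
  rw [show (-1 - k : ℤ) = -((k + 1 : ℕ) : ℤ) by push_cast; ring, zpow_neg, zpow_natCast]

private lemma contDiffAt_inv_subV {u s : ℂ} (h : s ≠ u) (k : ℕ) :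
    ContDiffAt ℂ k (fun z : ℂ => (z - u)⁻¹) s :=
  (contDiffAt_id.sub contDiffAt_const).inv (sub_ne_zero.2 h)

theorem Dk_localG {η : ℝ} (hη : 0 < η) :
    ∃ C : ℝ, 0 < C ∧ ∀ a r t Λ : ℝ, 0 < a → a ≤ r → r ≤ |t| → 1 ≤ Λ →
      (∀ z ∈ closedBall (pt a t) ((1 + η) * r),
        ‖zetaPole z‖ ≤ Real.exp Λ * ‖zetaPole (pt a t)‖) →
      ∃ S : Finset ℂ, (∀ u, u ∈ S ↔ (‖pt a t - u‖ < r ∧ zetaPole u = 0)) ∧
      (∀ u ∈ S, 1 ≤ zord u) ∧
      ∀ k : ℕ, ‖Dk a k t + ∑ u ∈ S, (zord u : ℂ) / (pt a t - u) ^ (k + 1)‖ ≤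
        C * Λ / r ^ (k + 1) := by
  classical
  obtain ⟨C0, hC0, hHV⟩ := exists_HG hη
  refine ⟨C0 + 1 + C0, by positivity, fun a r t Λ ha har ht hΛ hgrow => ?_⟩
  have hr : 0 < r := by linarith
  have hΛ0 : 0 < Λ := by linarith
  obtain ⟨S', H, hS', hord, hcount, hHd, hHb, hHeq⟩ := hHV a r t Λ ha hr hΛ0 hgrow
  set R0 : ℝ := (1 + η / 2) * r with hR0def
  have hrR0 : r < R0 := by
    have h1 : 0 < η / 2 * r := by positivity
    rw [hR0def]; linarith
  have hR0 : 0 < R0 := by linarith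
  set s0 : ℂ := pt a t with hs0
  have hs0re : s0.re = 1 + a := by simp [hs0, pt]
  have hs0im : s0.im = t := by simp [hs0, pt]
  refine ⟨S'.filter (fun u => ‖s0 - u‖ < r), fun u => ?_, fun u hu => hord u
    (Finset.mem_filter.1 hu).1, fun k => ?_⟩
  · rw [Finset.mem_filter, hS']
    constructor
    · rintro ⟨⟨h1, h2⟩, h3⟩
      exact ⟨h3, h2⟩
    · rintro ⟨h3, h2⟩
      refine ⟨⟨?_, h2⟩, h3⟩
      rw [mem_closedBall, dist_eq_norm, norm_sub_rev]
      linarith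
  -- the local formula
  set F : ℂ → ℂ := LSeries (fun n => (ArithmeticFunction.vonMangoldt n : ℂ)) with hF
  have hzero : ∀ u ∈ S', s0 ≠ u := by
    intro u hu hcon
    have h1 := ((hS' u).1 hu).2
    rw [← hcon] at h1
    exact zetaPole_ne_zero_of_one_le (s := s0) (by rw [hs0re]; linarith) h1
  have hs01 : s0 ≠ 1 := by
    intro h
    rw [h] at hs0re
    simp at hs0re
    linarith
  have hev : F =ᶠ[𝓝 s0] fun z => ((z - 1)⁻¹ - H z) - ∑ u ∈ S', (zord u : ℂ) * (z - u)⁻¹ := by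
    have o1 : {z : ℂ | 1 < z.re} ∈ 𝓝 s0 :=
      (isOpen_lt continuous_const Complex.continuous_re).mem_nhds (by
        show 1 < s0.re
        rw [hs0re]; linarith)
    filter_upwards [o1, ball_mem_nhds s0 hR0] with z hz1 hz2
    have hz1' : 1 < z.re := hz1
    have h1 := hHeq z hz2 (zetaPole_ne_zero_of_one_le hz1'.le)
    have h2 := neg_logDeriv_zetaPole hz1'
    rw [h1] at h2
    simp only [div_eq_mul_inv, one_mul] at h2
    rw [hF]
    linear_combination -h2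
  have hHc : ContDiffAt ℂ k H s0 :=
    ((hHd.analyticOnNhd isOpen_ball) s0 (mem_ball_self hR0)).contDiffAt
  have hinv1 : ContDiffAt ℂ k (fun z : ℂ => (z - 1)⁻¹) s0 := contDiffAt_inv_subV hs01 k
  have hsum : ∀ u ∈ S', ContDiffAt ℂ k (fun z : ℂ => (zord u : ℂ) * (z - u)⁻¹) s0 := fun u hu =>
    contDiffAt_const.mul (contDiffAt_inv_subV (hzero u hu) k)
  have hder : iteratedDeriv k F s0 =
      (-1) ^ k * (k.factorial : ℂ) / (s0 - 1) ^ (k + 1) - iteratedDeriv k H s0 -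
      ∑ u ∈ S', (zord u : ℂ) * ((-1) ^ k * (k.factorial : ℂ) / (s0 - u) ^ (k + 1)) := by
    rw [hev.iteratedDeriv_eq k, iteratedDeriv_fun_sub (hinv1.sub hHc) (ContDiffAt.sum hsum),
      iteratedDeriv_fun_sub hinv1 hHc, iter_inv_subV, iteratedDeriv_fun_sum hsum]
    congr 1
    refine Finset.sum_congr rfl fun u hu => ?_
    rw [iteratedDeriv_const_mul_field, iter_inv_subV]
  have hk0 : (k.factorial : ℂ) ≠ 0 := by exact_mod_cast k.factorial_ne_zero
  have hsq : ((-1 : ℂ)) ^ k * (-1) ^ k = 1 := by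
    rw [← mul_pow]; norm_num
  have hDk : Dk a k t = 1 / (s0 - 1) ^ (k + 1) - (-1) ^ k / (k.factorial : ℂ) * iteratedDeriv k H s0 -
      ∑ u ∈ S', (zord u : ℂ) / (s0 - u) ^ (k + 1) := by
    rw [Dk_eq ha k t, ← hs0, ← hF, hder, mul_sub, mul_sub, Finset.mul_sum]
    congr 1
    · congr 1
      rw [div_mul_div_comm, ← mul_assoc, hsq, one_mul]
      rw [mul_comm (k.factorial : ℂ), div_mul_cancel_right₀ hk0, one_div]
    · refine Finset.sum_congr rfl fun u hu => ?_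
      calc (-1 : ℂ) ^ k / (k.factorial : ℂ) *
            ((zord u : ℂ) * ((-1) ^ k * (k.factorial : ℂ) / (s0 - u) ^ (k + 1)))
          = ((-1 : ℂ) ^ k * (-1) ^ k) * ((k.factorial : ℂ) / (k.factorial : ℂ)) *
            ((zord u : ℂ) / (s0 - u) ^ (k + 1)) := by ring
        _ = _ := by rw [hsq, div_self hk0]; ring
  have hsplit : Dk a k t + ∑ u ∈ S'.filter (fun u => ‖s0 - u‖ < r),
      (zord u : ℂ) / (s0 - u) ^ (k + 1) =
      1 / (s0 - 1) ^ (k + 1) - (-1) ^ k / (k.factorial : ℂ) * iteratedDeriv k H s0 -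
        ∑ u ∈ S'.filter (fun u => ¬ ‖s0 - u‖ < r), (zord u : ℂ) / (s0 - u) ^ (k + 1) := by
    rw [hDk, ← Finset.sum_filter_add_sum_filter_not S' (fun u => ‖s0 - u‖ < r)]
    ring
  have hP : 0 < r ^ (k + 1) := by positivity
  rw [hsplit]
  -- three error terms
  have e1 : ‖(-1 : ℂ) ^ k / (k.factorial : ℂ) * iteratedDeriv k H s0‖ ≤ C0 * Λ / r ^ (k + 1) := by
    have h1 : ‖iteratedDeriv k H s0‖ ≤ k.factorial * (C0 * Λ / r) / r ^ k := by
      refine Complex.norm_iteratedDeriv_le_of_forall_mem_sphere_norm_le k hr ?_ ?_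
      · refine DifferentiableOn.diffContOnCl ?_
        rw [closure_ball s0 hr.ne']
        exact hHd.mono (closedBall_subset_ball hrR0)
      · intro z hz
        exact hHb z (sphere_subset_closedBall hz)
    have hkf : (0 : ℝ) < k.factorial := by exact_mod_cast k.factorial_pos
    rw [norm_mul, norm_div, norm_pow, norm_neg, norm_one, one_pow, Complex.norm_natCast]
    calc 1 / (k.factorial : ℝ) * ‖iteratedDeriv k H s0‖
        ≤ 1 / (k.factorial : ℝ) * (k.factorial * (C0 * Λ / r) / r ^ k) := by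
          gcongr
      _ = C0 * Λ / r ^ (k + 1) := by
          field_simp
          try ring
  have e2 : ‖1 / (s0 - 1) ^ (k + 1)‖ ≤ 1 * Λ / r ^ (k + 1) := by
    have h1 : r ≤ ‖s0 - 1‖ := by
      have h2 := Complex.abs_im_le_norm (s0 - 1)
      simp only [Complex.sub_im, Complex.one_im, sub_zero, hs0im] at h2
      linarith
    rw [norm_div, norm_one, norm_pow]
    have h3 : r ^ (k + 1) ≤ ‖s0 - 1‖ ^ (k + 1) :=
      pow_le_pow_left₀ hr.le h1 _
    calc 1 / ‖s0 - 1‖ ^ (k + 1) ≤ 1 / r ^ (k + 1) :=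
          div_le_div_of_nonneg_left zero_le_one hP h3
      _ ≤ 1 * Λ / r ^ (k + 1) :=
          div_le_div_of_nonneg_right (by linarith) hP.le
  have e3 : ‖∑ u ∈ S'.filter (fun u => ¬ ‖s0 - u‖ < r), (zord u : ℂ) / (s0 - u) ^ (k + 1)‖ ≤
      C0 * Λ / r ^ (k + 1) := by
    calc ‖∑ u ∈ S'.filter (fun u => ¬ ‖s0 - u‖ < r), (zord u : ℂ) / (s0 - u) ^ (k + 1)‖
        ≤ ∑ u ∈ S'.filter (fun u => ¬ ‖s0 - u‖ < r), (zord u : ℝ) / r ^ (k + 1) := by
          refine norm_sum_le_of_le _ fun u hu => ?_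
          have h1 := (Finset.mem_filter.1 hu).2
          rw [not_lt] at h1
          rw [norm_div, norm_pow, Complex.norm_natCast]
          gcongr
      _ ≤ ∑ u ∈ S', (zord u : ℝ) / r ^ (k + 1) :=
          Finset.sum_le_sum_of_subset_of_nonneg (Finset.filter_subset _ _)
            (fun u _ _ => by positivity)
      _ = (∑ u ∈ S', (zord u : ℝ)) / r ^ (k + 1) := by rw [Finset.sum_div]
      _ ≤ _ := by gcongr
  calc _ ≤ ‖1 / (s0 - 1) ^ (k + 1) - (-1) ^ k / (k.factorial : ℂ) * iteratedDeriv k H s0‖ +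
        ‖∑ u ∈ S'.filter (fun u => ¬ ‖s0 - u‖ < r), (zord u : ℂ) / (s0 - u) ^ (k + 1)‖ :=
        norm_sub_le _ _
    _ ≤ (‖1 / (s0 - 1) ^ (k + 1)‖ + ‖(-1) ^ k / (k.factorial : ℂ) * iteratedDeriv k H s0‖) +
        ‖∑ u ∈ S'.filter (fun u => ¬ ‖s0 - u‖ < r), (zord u : ℂ) / (s0 - u) ^ (k + 1)‖ := by
        gcongr
        exact norm_sub_le _ _
    _ ≤ (1 * Λ / r ^ (k + 1) + C0 * Λ / r ^ (k + 1)) + C0 * Λ / r ^ (k + 1) := by gcongr
    _ = _ := by ring

end Pool.Agent.H52.RK
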