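import Mathlib
import Pool.Agent.H48.UP.Classical
import Pool.Agent.H76.RP.Dk0
import Pool.Agent.H76.RP.PosT
import Pool.Agent.H52.RK.LocG

/-!
# MainAG: several zeros near the line, with Richert's bound

Copy of `H76/RP/MainA.lean` (helper70) with `locEG`: `loglog T` is replaced by
`Phi r T = log (2 + r^(3/2) log T + loglog T)`, the ordinates are `r`-separated.
-/

set_option autoImplicit false

open Complex

namespace Pool.Agent.H52.RK

open Pool.Agent.H76.CR Pool.Agent.H76.RP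

/-- the logarithm of the growth exponent of `ζ` in a disc of radius `r` around `1 + iT` -/
noncomputable def Phi (r T : ℝ) : ℝ :=
  Real.log (2 + r ^ (3 / 2 : ℝ) * Real.log T + Real.log (Real.log T))

private theorem ne_one {u : ℂ} (hu : riemannZeta u = 0) : u ≠ 1 := by
  rintro rfl
  exact riemannZeta_one_ne_zero hu

private theorem low_finite {r : ℝ} (hr : r ≤ 1) (H : ℝ) :
    {u : ℂ | riemannZeta u = 0 ∧ 1 - r < u.re ∧ |u.im| ≤ H}.Finite := by
  refine (Pool.Agent.H6.zeros_finite (2 + |H|)).subset ?_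
  rintro u ⟨hu, h1, h2⟩
  refine ⟨?_, (zetaPole_eq_zero_iff (ne_one hu)).2 hu⟩
  rw [Metric.mem_closedBall, dist_eq_norm]
  have h3 := Complex.norm_le_abs_re_add_abs_im (u - 2)
  have h4 : |(u - 2).re| ≤ 2 := by
    have e : (u - 2).re = u.re - 2 := by simp
    have := re_lt_one hu
    rw [e, abs_le]
    constructor <;> linarith
  have h5 : |(u - 2).im| ≤ |H| := by
    have e : (u - 2).im = u.im := by simp
    rw [e]
    exact h2.trans (le_abs_self H)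
  linarith

private theorem card_le_two {r : ℝ} (S : Finset ℂ)
    (hS : ∀ ρ ∈ S, ∀ ρ' ∈ S, ρ ≠ ρ' → r ≤ |ρ.im - ρ'.im|) (x y : ℝ) :
    (S.filter fun ρ' => |y - (x - ρ'.im)| < r).card ≤ 2 := by
  by_contra hc
  rw [not_le, Finset.two_lt_card] at hc
  obtain ⟨a, ha, b, hb, c, hc, hab, hac, hbc⟩ := hc
  rw [Finset.mem_filter, abs_lt] at ha hb hc
  have h1 := hS a ha.1 b hb.1 hab
  have h2 := hS a ha.1 c hc.1 hac
  have h3 := hS b hb.1 c hc.1 hbc
  rw [le_abs] at h1 h2 h3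
  obtain ⟨-, ha1, ha2⟩ := ha
  obtain ⟨-, hb1, hb2⟩ := hb
  obtain ⟨-, hc1, hc2⟩ := hc
  rcases h1 with h1 | h1 <;> rcases h2 with h2 | h2 <;> rcases h3 with h3 | h3 <;> linarith

private theorem zc_zlow' {r H : ℝ} (hr : r ≤ 1) (S : Finset ℂ)
    (hS : ∀ ρ ∈ S, ∀ ρ' ∈ S, ρ ≠ ρ' → r ≤ |ρ.im - ρ'.im|)
    (hH : ∀ ρ ∈ S, ∀ ρ' ∈ S, |ρ.im - ρ'.im| ≤ H) :
    ∑ ρ ∈ S, ∑ ρ' ∈ S, (if ρ = ρ' then 0 else zc r (ρ.im - ρ'.im)) ≤
      3 * S.card * zlow r (H + 1) := by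
  classical
  set Z : Finset ℂ := (low_finite hr (H + 1)).toFinset with hZ
  have hlow : zlow r (H + 1) = ∑ u ∈ Z, analyticOrderNatAt riemannZeta u :=
    finsum_mem_eq_finite_toFinset_sum _ (low_finite hr (H + 1))
  have h1 : ∀ ρ ∈ S, ∀ ρ' ∈ S, (if ρ = ρ' then 0 else zc r (ρ.im - ρ'.im)) ≤
      ∑ u ∈ Z, if |u.im - (ρ.im - ρ'.im)| < r then analyticOrderNatAt riemannZeta u else 0 := by
    intro ρ hρ ρ' hρ'
    split_ifs with h
    · exact Nat.zero_le _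
    · rw [zc_sum hr, ← Finset.sum_filter]
      refine Finset.sum_le_sum_of_subset ?_
      intro u hu
      rw [Set.Finite.mem_toFinset] at hu
      obtain ⟨hu0, hun⟩ := hu
      have hre : |(u - (1 + ((ρ.im - ρ'.im : ℝ) : ℂ) * I)).re| < r :=
        lt_of_le_of_lt (abs_re_le_norm _) hun
      have him : |(u - (1 + ((ρ.im - ρ'.im : ℝ) : ℂ) * I)).im| < r :=
        lt_of_le_of_lt (abs_im_le_norm _) hun
      have e1 : (u - (1 + ((ρ.im - ρ'.im : ℝ) : ℂ) * I)).re = u.re - 1 := by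
        simp [Complex.mul_re]
      have e2 : (u - (1 + ((ρ.im - ρ'.im : ℝ) : ℂ) * I)).im = u.im - (ρ.im - ρ'.im) := by
        simp [Complex.mul_im]
      rw [e1] at hre
      rw [e2] at him
      rw [Finset.mem_filter, hZ, Set.Finite.mem_toFinset]
      have hHd := hH ρ hρ ρ' hρ'
      refine ⟨⟨hu0, ?_, ?_⟩, him⟩
      · have := (abs_lt.1 hre).1
        linarith
      · have h3 : |u.im| ≤ |u.im - (ρ.im - ρ'.im)| + |ρ.im - ρ'.im| := by
          have := abs_add_le (u.im - (ρ.im - ρ'.im)) (ρ.im - ρ'.im)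
          rwa [sub_add_cancel] at this
        linarith
  calc ∑ ρ ∈ S, ∑ ρ' ∈ S, (if ρ = ρ' then 0 else zc r (ρ.im - ρ'.im))
      ≤ ∑ ρ ∈ S, ∑ ρ' ∈ S, ∑ u ∈ Z,
          (if |u.im - (ρ.im - ρ'.im)| < r then analyticOrderNatAt riemannZeta u else 0) :=
        Finset.sum_le_sum fun ρ hρ => Finset.sum_le_sum fun ρ' hρ' => h1 ρ hρ ρ' hρ'
    _ = ∑ ρ ∈ S, ∑ u ∈ Z, ∑ ρ' ∈ S,
          (if |u.im - (ρ.im - ρ'.im)| < r then analyticOrderNatAt riemannZeta u else 0) :=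
        Finset.sum_congr rfl fun ρ _ => Finset.sum_comm
    _ ≤ ∑ ρ ∈ S, ∑ u ∈ Z, 2 * analyticOrderNatAt riemannZeta u := by
        refine Finset.sum_le_sum fun ρ _ => Finset.sum_le_sum fun u _ => ?_
        rw [← Finset.sum_filter, Finset.sum_const, smul_eq_mul]
        exact Nat.mul_le_mul_right _ (card_le_two S hS ρ.im u.im)
    _ = 2 * S.card * zlow r (H + 1) := by
        rw [hlow, Finset.sum_const, smul_eq_mul, ← Finset.mul_sum]
        ring
    _ ≤ 3 * S.card * zlow r (H + 1) :=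
        Nat.mul_le_mul_right _ (Nat.mul_le_mul_right _ (by norm_num))

/-- the growth exponent in the discs of radius `r`, given a zero within `δ < r` of the line -/
theorem gv_le {c0 r1 : ℝ} (hc0 : 0 < c0) (hr1 : 0 < r1) (hr1' : r1 ≤ 1) {r δ T : ℝ}
    (hδr : δ < r) (hr : r ≤ 1) (hT2 : Real.exp (Real.exp 1) ≤ T)
    (hδ : c0 / (2 * Real.log T) ≤ δ) {t : ℝ} (ht : |t| ≤ 2 * T) :
    gv (r1 * r) t ≤ (4 + Real.log (1 / r1) + |Real.log (2 / c0)|) *
      (2 + r ^ (3 / 2 : ℝ) * Real.log T + Real.log (Real.log T)) := by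
  have e1 : (2 : ℝ) ≤ Real.exp 1 := by
    have := Real.add_one_le_exp (1 : ℝ)
    linarith
  have e2 : Real.exp 1 + 1 ≤ Real.exp (Real.exp 1) := Real.add_one_le_exp _
  have hT3 : 3 ≤ T := by linarith
  have hT : 0 < T := by linarith
  have hl : Real.exp 1 ≤ Real.log T := by
    rw [Real.le_log_iff_exp_le hT]
    exact hT2
  have hl0 : 0 < Real.log T := by linarith
  have hL1 : 1 ≤ Real.log (Real.log T) := by
    rw [Real.le_log_iff_exp_le hl0]
    exact hl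
  have hδ0 : 0 < δ := lt_of_lt_of_le (by positivity) hδ
  have hr0 : 0 < r := by linarith
  set a : ℝ := r1 * r with ha_def
  have ha : 0 < a := mul_pos hr1 hr0
  have har : a ≤ r := by
    rw [ha_def]
    nlinarith
  have hap : a ^ (3 / 2 : ℝ) ≤ r ^ (3 / 2 : ℝ) := Real.rpow_le_rpow ha.le har (by norm_num)
  have hrp : 0 ≤ r ^ (3 / 2 : ℝ) := Real.rpow_nonneg hr0.le _
  have hap0 : 0 ≤ a ^ (3 / 2 : ℝ) := Real.rpow_nonneg ha.le _
  have ht0 := abs_nonneg t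
  have hlt0 : 0 ≤ Real.log (|t| + 2) := Real.log_nonneg (by linarith)
  have hsq : |t| + 3 ≤ T ^ 2 := by nlinarith
  have hl2 : Real.log (|t| + 3) ≤ 2 * Real.log T := by
    have := Real.log_le_log (by linarith) hsq
    rw [Real.log_pow] at this
    push_cast at this
    exact this
  have hl1 : Real.log (|t| + 2) ≤ 2 * Real.log T :=
    (Real.log_le_log (by linarith) (by linarith)).trans hl2
  have f1 : a ^ (3 / 2 : ℝ) * Real.log (|t| + 2) ≤ 2 * (r ^ (3 / 2 : ℝ) * Real.log T) := by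
    calc a ^ (3 / 2 : ℝ) * Real.log (|t| + 2) ≤ r ^ (3 / 2 : ℝ) * (2 * Real.log T) := by gcongr
      _ = _ := by ring
  have hl3 : 0 < Real.log (|t| + 3) := Real.log_pos (by linarith)
  have f2 : Real.log (Real.log (|t| + 3)) ≤ 2 * Real.log (Real.log T) := by
    have h1 := Real.log_le_log hl3 hl2
    rw [Real.log_mul (by norm_num) hl0.ne'] at h1
    have h2 : Real.log 2 ≤ 1 := by
      have := Real.log_two_lt_d9
      linarith
    linarith
  have f3 : Real.log (1 / a) ≤ Real.log (1 / r1) + |Real.log (2 / c0)| +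
      Real.log (Real.log T) := by
    have h1 : 1 / r ≤ 2 / c0 * Real.log T := by
      have h2 : c0 / (2 * Real.log T) ≤ r := by linarith
      rw [div_le_iff₀ (by positivity)] at h2
      rw [div_le_iff₀ hr0]
      calc (1 : ℝ) = c0 / c0 := (div_self hc0.ne').symm
        _ ≤ r * (2 * Real.log T) / c0 := div_le_div_of_nonneg_right h2 hc0.le
        _ = _ := by ring
    have h3 : 1 / a = 1 / r1 * (1 / r) := by rw [ha_def]; field_simp
    rw [h3, Real.log_mul (by positivity) (by positivity)]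
    have h4 := Real.log_le_log (by positivity) h1
    rw [Real.log_mul (by positivity) hl0.ne'] at h4
    have h5 := le_abs_self (Real.log (2 / c0))
    linarith
  have hb1 : 0 ≤ Real.log (1 / r1) := Real.log_nonneg (by rw [le_div_iff₀ hr1]; linarith)
  have hb2 : 0 ≤ |Real.log (2 / c0)| := abs_nonneg _
  have hX : 0 ≤ r ^ (3 / 2 : ℝ) * Real.log T := by positivity
  have g1 : 0 ≤ (Real.log (1 / r1) + |Real.log (2 / c0)|) * (r ^ (3 / 2 : ℝ) * Real.log T) := by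
    positivity
  have g2 : 0 ≤ (Real.log (1 / r1) + |Real.log (2 / c0)|) * Real.log (Real.log T) := by
    positivity
  unfold gv
  nlinarith

/-- the level `k0` -/
theorem level {C3 X : ℝ} (hC3 : 1 ≤ C3) (hX : 3 ≤ X) :
    C3 * X ≤ 2 ^ ⌈Real.logb 2 (C3 * X)⌉₊ ∧
      ((⌈Real.logb 2 (C3 * X)⌉₊ : ℕ) : ℝ) + 1 ≤ (2 * Real.log C3 + 4) * Real.log X ∧
      1 ≤ Real.log X := by
  have hΛ1 : 1 ≤ C3 * X := by nlinarith
  have hlX : 1 ≤ Real.log X := by
    rw [Real.le_log_iff_exp_le (by linarith)]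
    have := Real.exp_one_lt_d9
    linarith
  refine ⟨?_, ?_, hlX⟩
  · have h1 : Real.logb 2 (C3 * X) ≤ (⌈Real.logb 2 (C3 * X)⌉₊ : ℝ) := Nat.le_ceil _
    rw [Real.logb_le_iff_le_rpow (by norm_num) (by linarith), Real.rpow_natCast] at h1
    exact h1
  · have h1 : 0 ≤ Real.logb 2 (C3 * X) := Real.logb_nonneg (by norm_num) hΛ1
    have h2 := Nat.ceil_lt_add_one h1
    have hlog2 : 1 / 2 < Real.log 2 := by linarith [Real.log_two_gt_d9]
    have hlC : 0 ≤ Real.log C3 := Real.log_nonneg hC3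
    have h3 : Real.logb 2 (C3 * X) ≤ 2 * Real.log C3 + 2 * Real.log X := by
      unfold Real.logb
      rw [Real.log_mul (by linarith) (by linarith), div_le_iff₀ (by linarith)]
      nlinarith
    have h4 : 2 * Real.log C3 ≤ 2 * Real.log C3 * Real.log X := by nlinarith
    nlinarith

private theorem ma_pos {a : ℝ} (ha : 0 < a) (k : ℕ) (S : Finset ℂ)
    (hS : Set.InjOn (fun ρ : ℂ => ρ.im) S) :
    0 ≤ (S.card : ℝ) ^ 2 * (∑' n, dco a k n) + 2 * S.card * ∑ ρ ∈ S, (Dk a k ρ.im).re +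
      ∑ ρ ∈ S, ∑ ρ' ∈ S, (Dk a k (ρ.im - ρ'.im)).re := by
  classical
  have h := posT (dco a k) (dco_nonneg a k) (by simp [dco]) (summable_dco ha k)
    (S.image (fun ρ : ℂ => ρ.im)) S.card
  rw [Finset.sum_image hS, Finset.sum_image hS] at h
  simp only [Finset.sum_image hS] at h
  exact h

private noncomputable def ET (a q : ℝ) (k0 K : ℕ) (t : ℝ) : ℝ :=
  (∑ k ∈ Finset.Ico k0 K, ((q * a : ℝ) : ℂ) ^ k * Dk a k t).re

private theorem ET_eq (a q : ℝ) (k0 K : ℕ) (t : ℝ) :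
    ET a q k0 K t = ∑ k ∈ Finset.Ico k0 K, (q * a) ^ k * (Dk a k t).re := by
  unfold ET
  rw [Complex.re_sum]
  refine Finset.sum_congr rfl (fun k _ => ?_)
  rw [← Complex.ofReal_pow, Complex.re_ofReal_mul]

private theorem ma_pos2 {a q : ℝ} (ha : 0 < a) (hq : 0 < q) (k0 K : ℕ) (S : Finset ℂ)
    (hS : Set.InjOn (fun ρ : ℂ => ρ.im) S) :
    0 ≤ (S.card : ℝ) ^ 2 * ET a q k0 K 0 + 2 * S.card * ∑ ρ ∈ S, ET a q k0 K ρ.im +
      ∑ ρ ∈ S, ∑ ρ' ∈ S, ET a q k0 K (ρ.im - ρ'.im) := by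
  have h : (S.card : ℝ) ^ 2 * ET a q k0 K 0 + 2 * S.card * ∑ ρ ∈ S, ET a q k0 K ρ.im +
      ∑ ρ ∈ S, ∑ ρ' ∈ S, ET a q k0 K (ρ.im - ρ'.im) =
      ∑ k ∈ Finset.Ico k0 K, (q * a) ^ k * ((S.card : ℝ) ^ 2 * (∑' n, dco a k n) +
        2 * S.card * ∑ ρ ∈ S, (Dk a k ρ.im).re +
        ∑ ρ ∈ S, ∑ ρ' ∈ S, (Dk a k (ρ.im - ρ'.im)).re) := by
    have e1 : (S.card : ℝ) ^ 2 * ET a q k0 K 0 =
        ∑ k ∈ Finset.Ico k0 K, (q * a) ^ k * ((S.card : ℝ) ^ 2 * (∑' n, dco a k n)) := by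
      rw [ET_eq, Finset.mul_sum]
      refine Finset.sum_congr rfl (fun k _ => ?_)
      have h0 := Dk_zero a k
      rw [h0, Complex.ofReal_re]
      ring
    have e2 : 2 * (S.card : ℝ) * ∑ ρ ∈ S, ET a q k0 K ρ.im =
        ∑ k ∈ Finset.Ico k0 K, (q * a) ^ k * (2 * S.card * ∑ ρ ∈ S, (Dk a k ρ.im).re) := by
      simp only [ET_eq]
      rw [Finset.sum_comm, Finset.mul_sum]
      refine Finset.sum_congr rfl (fun k _ => ?_)
      rw [← Finset.mul_sum]
      ring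
    have e3 : ∑ ρ ∈ S, ∑ ρ' ∈ S, ET a q k0 K (ρ.im - ρ'.im) =
        ∑ k ∈ Finset.Ico k0 K, (q * a) ^ k *
          (∑ ρ ∈ S, ∑ ρ' ∈ S, (Dk a k (ρ.im - ρ'.im)).re) := by
      simp only [ET_eq]
      have h1 : ∀ ρ ∈ S, (∑ ρ' ∈ S, ∑ k ∈ Finset.Ico k0 K,
          (q * a) ^ k * (Dk a k (ρ.im - ρ'.im)).re) =
          ∑ k ∈ Finset.Ico k0 K, ∑ ρ' ∈ S, (q * a) ^ k * (Dk a k (ρ.im - ρ'.im)).re :=
        fun ρ _ => Finset.sum_comm
      rw [Finset.sum_congr rfl h1, Finset.sum_comm]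
      refine Finset.sum_congr rfl (fun k _ => ?_)
      rw [Finset.mul_sum]
      refine Finset.sum_congr rfl (fun ρ _ => ?_)
      rw [Finset.mul_sum]
    rw [e1, e2, e3, ← Finset.sum_add_distrib, ← Finset.sum_add_distrib]
    refine Finset.sum_congr rfl (fun k _ => ?_)
    ring
  rw [h]
  exact Finset.sum_nonneg (fun k _ => mul_nonneg (pow_nonneg (mul_pos hq ha).le k)
    (ma_pos ha k S hS))

private theorem ma_diag {a q : ℝ} (k0 K : ℕ) (S : Finset ℂ) :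
    ∑ ρ ∈ S, ∑ ρ' ∈ S, ET a q k0 K (ρ.im - ρ'.im) = S.card * ET a q k0 K 0 +
      ∑ ρ ∈ S, ∑ ρ' ∈ S, (if ρ = ρ' then 0 else ET a q k0 K (ρ.im - ρ'.im)) := by
  have h : ∀ ρ ∈ S, ∑ ρ' ∈ S, ET a q k0 K (ρ.im - ρ'.im) = ET a q k0 K 0 +
      ∑ ρ' ∈ S, (if ρ = ρ' then 0 else ET a q k0 K (ρ.im - ρ'.im)) := by
    intro ρ hρ
    have h1 : ∀ ρ' ∈ S, ET a q k0 K (ρ.im - ρ'.im) = (if ρ = ρ' then ET a q k0 K 0 else 0) +
        (if ρ = ρ' then 0 else ET a q k0 K (ρ.im - ρ'.im)) := by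
      intro ρ' _
      split_ifs with h2
      · rw [h2, sub_self, add_zero]
      · rw [zero_add]
    rw [Finset.sum_congr rfl h1, Finset.sum_add_distrib, Finset.sum_ite_eq, if_pos hρ]
  rw [Finset.sum_congr rfl h, Finset.sum_add_distrib, Finset.sum_const, nsmul_eq_mul]

private theorem ma_geo {q : ℝ} (hq : 0 ≤ q) (hq1 : q < 1) (k0 K : ℕ) :
    ∑ k ∈ Finset.Ico k0 K, q ^ k ≤ 1 / (1 - q) := by
  have h := (summable_geometric_of_lt_one hq hq1).sum_le_tsum (Finset.Ico k0 K)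
    (fun k _ => pow_nonneg hq k)
  rw [tsum_geometric_of_lt_one hq hq1] at h
  rw [one_div]
  exact h

private theorem ma_zero {a q C1 : ℝ} (ha : 0 < a) (hq : 0 < q) (hq1 : q < 1) (hC1 : 0 ≤ C1)
    (k0 K : ℕ) (h : ∀ k : ℕ, |a ^ (k + 1) * (∑' n : ℕ, dco a k n) - 1| ≤ C1 / 2 ^ k) :
    ET a q k0 K 0 ≤ 1 / ((1 - q) * a) + 2 * C1 / a := by
  rw [ET_eq]
  have h1 : ∀ k ∈ Finset.Ico k0 K, (q * a) ^ k * (Dk a k 0).re ≤
      1 / a * q ^ k + C1 / a * (1 / 2) ^ k := by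
    intro k _
    have h0 := Dk_zero a k
    rw [h0, Complex.ofReal_re]
    set D := ∑' n : ℕ, dco a k n
    have h2 := (abs_le.mp (h k)).2
    have hqk : 0 < q ^ k := pow_pos hq k
    have hqk1 : q ^ k ≤ 1 := pow_le_one₀ hq.le hq1.le
    have h3 : (q * a) ^ k * D = q ^ k / a * (a ^ (k + 1) * D) := by
      field_simp
      ring
    have h4 : a ^ (k + 1) * D ≤ 1 + C1 / 2 ^ k := by linarith
    rw [h3]
    calc q ^ k / a * (a ^ (k + 1) * D) ≤ q ^ k / a * (1 + C1 / 2 ^ k) :=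
          mul_le_mul_of_nonneg_left h4 (div_nonneg hqk.le ha.le)
      _ = 1 / a * q ^ k + q ^ k * (C1 / a * (1 / 2) ^ k) := by
          rw [one_div_pow]
          ring
      _ ≤ 1 / a * q ^ k + 1 * (C1 / a * (1 / 2) ^ k) := by
          have h5 : 0 ≤ C1 / a * (1 / 2) ^ k := by positivity
          linarith [mul_le_mul_of_nonneg_right hqk1 h5]
      _ = _ := by ring
  refine (Finset.sum_le_sum h1).trans ?_
  rw [Finset.sum_add_distrib, ← Finset.mul_sum, ← Finset.mul_sum]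
  have h6 := ma_geo hq.le hq1 k0 K
  have h7 := ma_geo (q := 1 / 2) (by norm_num) (by norm_num) k0 K
  have h8 : (1 : ℝ) / (1 - 1 / 2) = 2 := by norm_num
  rw [h8] at h7
  have hq2 : 0 < 1 - q := by linarith
  have h9 : 1 / a * ∑ k ∈ Finset.Ico k0 K, q ^ k ≤ 1 / ((1 - q) * a) := by
    calc 1 / a * ∑ k ∈ Finset.Ico k0 K, q ^ k ≤ 1 / a * (1 / (1 - q)) :=
          mul_le_mul_of_nonneg_left h6 (by positivity)
      _ = 1 / ((1 - q) * a) := by
          rw [one_div_mul_one_div, mul_comm a]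
  have h10 : C1 / a * ∑ k ∈ Finset.Ico k0 K, (1 / 2 : ℝ) ^ k ≤ 2 * C1 / a := by
    calc C1 / a * ∑ k ∈ Finset.Ico k0 K, (1 / 2 : ℝ) ^ k ≤ C1 / a * 2 :=
          mul_le_mul_of_nonneg_left h7 (by positivity)
      _ = 2 * C1 / a := by ring
  linarith

private theorem ma_log {T r1 : ℝ} (hr1 : 0 < r1) (hT1 : 1 / r1 ≤ T)
    (hT2 : Real.exp (Real.exp 1) ≤ T) :
    2 ≤ T ∧ 1 ≤ Real.log T ∧ 1 ≤ Real.log (Real.log T) ∧ Real.log (1 / r1) ≤ Real.log T := by
  have e1 : (2 : ℝ) ≤ Real.exp 1 := by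
    have := Real.add_one_le_exp (1 : ℝ)
    linarith
  have e2 : Real.exp 1 + 1 ≤ Real.exp (Real.exp 1) := Real.add_one_le_exp _
  have hT : 0 < T := by linarith [Real.exp_pos (Real.exp 1)]
  have hl : Real.exp 1 ≤ Real.log T := by
    rw [Real.le_log_iff_exp_le hT]
    exact hT2
  refine ⟨by linarith, by linarith, ?_, ?_⟩
  · rw [Real.le_log_iff_exp_le (by linarith)]
    exact hl
  · exact Real.log_le_log (by positivity) hT1

private theorem ma_arith {R x y C1 C2 k SZ SS E0 : ℝ} (hR : 2 ≤ R) (hx : 0 ≤ x) (hy : 0 ≤ y)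
    (hC1 : 0 ≤ C1) (hE0 : E0 ≤ x / 7 + 2 * C1 * y) {U W : ℝ}
    (hU : U ≤ R * (-(x / 8)) + k * y * SZ + R * (C2 * y))
    (hW : W ≤ k * y * SS + R ^ 2 * (C2 * y))
    (h : 0 ≤ R ^ 2 * E0 + 2 * R * U + (R * E0 + W)) (hC : (3 * C1 + 3 * C2) * y ≤ x / 56) :
    R ^ 2 * (x / 56) ≤ k * y * (2 * R * SZ + SS) := by
  have hR0 : 0 ≤ R := by linarith
  have h1 : 2 * R * U ≤ 2 * R * (R * (-(x / 8)) + k * y * SZ + R * (C2 * y)) :=
    mul_le_mul_of_nonneg_left hU (by linarith)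
  have h2 : R ^ 2 * E0 + R * E0 ≤ (R ^ 2 + R) * (x / 7 + 2 * C1 * y) := by
    have h3 := mul_le_mul_of_nonneg_left hE0 (by positivity : 0 ≤ R ^ 2 + R)
    linarith
  have h4 : 0 ≤ x / 7 + 2 * C1 * y := by positivity
  have h5 : R ^ 2 + R ≤ 3 / 2 * R ^ 2 := by nlinarith
  have h6 : (R ^ 2 + R) * (x / 7 + 2 * C1 * y) ≤ 3 / 2 * R ^ 2 * (x / 7 + 2 * C1 * y) :=
    mul_le_mul_of_nonneg_right h5 h4
  have h7 : R ^ 2 * ((3 * C1 + 3 * C2) * y) ≤ R ^ 2 * (x / 56) :=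
    mul_le_mul_of_nonneg_left hC (sq_nonneg R)
  nlinarith

theorem mainA : ∃ c C : ℝ, 0 < c ∧ 1 ≤ C ∧ ∀ (r δ T : ℝ) (S : Finset ℂ), 0 < δ → δ < r →
    r ≤ 1 → C ≤ T → 2 ≤ S.card →
    (∀ ρ ∈ S, riemannZeta ρ = 0 ∧ 1 - δ ≤ ρ.re ∧ 1 ≤ |ρ.im| ∧ |ρ.im| ≤ T) →
    (∀ ρ ∈ S, ∀ ρ' ∈ S, ρ ≠ ρ' → r ≤ |ρ.im - ρ'.im|) →
    c * r / (δ * Phi r T) ≤
      (∑ ρ ∈ S, (zc r ρ.im : ℝ)) / S.card +
      (∑ ρ ∈ S, ∑ ρ' ∈ S, (if ρ = ρ' then 0 else (zc r (ρ.im - ρ'.im) : ℝ))) / S.card ^ 2 := by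
  obtain ⟨c0, hc0, hcl⟩ := Pool.Agent.H48.UP.classical
  obtain ⟨r1, C1, hr1, hr1', hC1, hD⟩ := dk0
  obtain ⟨C2, hC2, hL⟩ := locEG
  set C3 : ℝ := 4 + Real.log (1 / r1) + |Real.log (2 / c0)| with hC3def
  have hb1 : 0 ≤ Real.log (1 / r1) := Real.log_nonneg (by rw [le_div_iff₀ hr1]; linarith)
  have hb2 : 0 ≤ |Real.log (2 / c0)| := abs_nonneg _
  have hC31 : 1 ≤ C3 := by linarith
  set C4 : ℝ := 2 * Real.log C3 + 4 with hC4def
  have hC44 : 4 ≤ C4 := by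
    have := Real.log_nonneg hC31
    linarith
  set Cp : ℝ := 3 * C1 + 3 * C2 with hCp
  have hCp6 : 6 ≤ Cp := by linarith
  refine ⟨r1 / (112 * C4 * Cp), max (1 / r1) (Real.exp (Real.exp 1)), by positivity,
    le_max_of_le_right ?_, ?_⟩
  · exact Real.one_le_exp (Real.exp_pos 1).le
  intro r δ T S hδ hδr hr hT hcard hS hsep
  have hT1 : 1 / r1 ≤ T := (le_max_left _ _).trans hT
  have hT2 : Real.exp (Real.exp 1) ≤ T := (le_max_right _ _).trans hT
  obtain ⟨hT3, hlT, hLL, hlr⟩ := ma_log hr1 hT1 hT2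
  have hr0 : 0 < r := by linarith
  set X : ℝ := 2 + r ^ (3 / 2 : ℝ) * Real.log T + Real.log (Real.log T) with hXdef
  have hX3 : 3 ≤ X := by
    have : 0 ≤ r ^ (3 / 2 : ℝ) * Real.log T :=
      mul_nonneg (Real.rpow_nonneg hr0.le _) (by linarith)
    linarith
  obtain ⟨hΛk, hk1, hL1⟩ := level hC31 hX3
  set L : ℝ := Phi r T with hLdef
  have hLX : Real.log X = L := rfl
  rw [hLX] at hk1 hL1
  have hL0 : 0 < L := by linarith
  have hδ0 : c0 / (2 * Real.log T) ≤ δ := by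
    obtain ⟨ρ, hρ⟩ := Finset.card_pos.1 (by omega : 0 < S.card)
    obtain ⟨s1, s2, s3, s4⟩ := hS ρ hρ
    have h1 := hcl ρ s1 (by linarith)
    have h2 : 0 < Real.log (2 + |ρ.im|) := Real.log_pos (by linarith)
    have h3 : Real.log (2 + |ρ.im|) ≤ 2 * Real.log T := by
      have h4 : 2 + |ρ.im| ≤ T ^ 2 := by nlinarith
      have h5 := Real.log_le_log (by linarith) h4
      rw [Real.log_pow] at h5
      push_cast at h5
      exact h5
    have h6 : c0 / (2 * Real.log T) ≤ c0 / Real.log (2 + |ρ.im|) :=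
      div_le_div_of_nonneg_left hc0.le h2 h3
    linarith
  set a : ℝ := r1 * r with ha_def
  have ha : 0 < a := mul_pos hr1 hr0
  have har : a ≤ r1 := by
    rw [ha_def]
    nlinarith
  have ha3 : 3 * a ≤ r := by
    rw [ha_def]
    nlinarith
  have hR2 : (2 : ℝ) ≤ (S.card : ℝ) := by exact_mod_cast hcard
  set R : ℝ := (S.card : ℝ) with hR_def
  have hR0 : 0 < R := by linarith
  have hZ1 : ∀ ρ ∈ S, (1 : ℝ) ≤ (zc r ρ.im : ℝ) := by
    intro ρ hρ
    have h1 := zc_pos hr (hS ρ hρ).1 (by linarith [(hS ρ hρ).2.1])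
    exact_mod_cast h1
  have hB0 : 0 ≤ (∑ ρ ∈ S, ∑ ρ' ∈ S, (if ρ = ρ' then 0 else (zc r (ρ.im - ρ'.im) : ℝ))) /
      R ^ 2 := by
    refine div_nonneg (Finset.sum_nonneg (fun ρ _ => Finset.sum_nonneg (fun ρ' _ => ?_)))
      (sq_nonneg _)
    split_ifs
    · exact le_rfl
    · exact Nat.cast_nonneg _
  by_cases hcase : a / (56 * Cp) < δ
  · have hA1 : 1 ≤ (∑ ρ ∈ S, (zc r ρ.im : ℝ)) / R := by
      rw [le_div_iff₀ hR0, one_mul, hR_def]
      calc (S.card : ℝ) = ∑ ρ ∈ S, (1 : ℝ) := by rw [Finset.sum_const, nsmul_eq_mul, mul_one]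
        _ ≤ _ := Finset.sum_le_sum hZ1
    have h1 : r1 / (112 * C4 * Cp) * r / (δ * L) ≤ 1 := by
      rw [div_le_one (by positivity)]
      have h2 : r1 / (112 * C4 * Cp) * r = a / (56 * Cp) / (2 * C4) := by
        rw [ha_def]
        field_simp
        ring
      have h3 : 0 < a / (56 * Cp) := by positivity
      have h4 : δ ≤ δ * L := by nlinarith
      have h5 : a / (56 * Cp) / (2 * C4) ≤ a / (56 * Cp) := div_le_self h3.le (by linarith)
      rw [h2]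
      linarith
    linarith
  · push Not at hcase
    have hδa : 56 * Cp * δ ≤ a := by
      rw [le_div_iff₀ (by positivity)] at hcase
      linarith
    have hδ336 : 336 * δ ≤ a := by nlinarith
    set q : ℝ := 1 - 7 * δ / a with hq_def
    have h7 : 7 * δ / a ≤ 1 / 48 := by
      rw [div_le_iff₀ ha]
      linarith
    have h7p : 0 < 7 * δ / a := by positivity
    have hq : 0 < q := by linarith
    have hq1 : q < 1 := by linarith
    have hqa : (1 - q) * a = 7 * δ := by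
      rw [hq_def]
      field_simp
      ring
    set Λ : ℝ := C3 * X with hΛ
    set k0 : ℕ := ⌈Real.logb 2 Λ⌉₊ with hk0
    obtain ⟨K0, hK0⟩ := exists_pow_lt_of_lt_one (show 0 < 1 - q by linarith) hq1
    set K : ℕ := max k0 K0 with hK
    have hkK : k0 ≤ K := le_max_left _ _
    have hqK : q ^ K ≤ 1 - q :=
      (pow_le_pow_of_le_one hq.le hq1.le (le_max_right k0 K0)).trans hK0.le
    have ha4 : a ≤ 1 / 6 := by linarith
    have hTpos : 0 < T := by linarith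
    have hgv : ∀ t : ℝ, |t| ≤ 2 * T → gv a t ≤ Λ := by
      intro t ht
      have := gv_le hc0 hr1 (by linarith) hδr hr hT2 hδ0 ht
      rw [← hC3def, ← hXdef, ← ha_def] at this
      exact this
    have hE0 : ET a q k0 K 0 ≤ 1 / δ / 7 + 2 * C1 * (1 / a) := by
      have h1 := ma_zero ha hq hq1 (by linarith : (0 : ℝ) ≤ C1) k0 K
        (fun k => hD a k ha har)
      rw [hqa] at h1
      have h2 : 1 / (7 * δ) = 1 / δ / 7 := by
        field_simp
      rw [h2] at h1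
      have h3 : 2 * C1 / a = 2 * C1 * (1 / a) := by ring
      rw [h3] at h1
      exact h1
    have hU : ∑ ρ ∈ S, ET a q k0 K ρ.im ≤ R * (-(1 / δ / 8)) +
        ((k0 : ℝ) + 1) * (1 / a) * ∑ ρ ∈ S, (zc r ρ.im : ℝ) + R * (C2 * (1 / a)) := by
      have h1 : ∀ ρ ∈ S, ET a q k0 K ρ.im ≤ -(1 / δ / 8) +
          ((k0 : ℝ) + 1) * (1 / a) * (zc r ρ.im : ℝ) + C2 * (1 / a) := by
        intro ρ hρ
        obtain ⟨s1, s2, s3, s4⟩ := hS ρ hρ
        have hre := re_lt_one s1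
        have h2 := (hL a q ρ.im Λ k0 K ha ha4 hq hq1 hkK hqK (by linarith)
          (hgv _ (by linarith)) hΛk).2 ρ s1 rfl (by linarith)
        have h3 : 1 / δ / 8 ≤ 1 / ((1 - q) * a + (1 - ρ.re)) := by
          rw [hqa, div_div]
          exact one_div_le_one_div_of_le (by linarith) (by linarith)
        have h4 : (zc (3 * a) ρ.im : ℝ) ≤ (zc r ρ.im : ℝ) := by
          exact_mod_cast zc_mono ha3 hr ρ.im
        have h5 : ((k0 : ℝ) + 1) / a * zc (3 * a) ρ.im ≤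
            ((k0 : ℝ) + 1) * (1 / a) * (zc r ρ.im : ℝ) := by
          rw [mul_one_div]
          exact mul_le_mul_of_nonneg_left h4 (by positivity)
        have h6 : C2 / a = C2 * (1 / a) := by ring
        have h7 : ET a q k0 K ρ.im ≤ -(1 / ((1 - q) * a + (1 - ρ.re))) +
            ((k0 : ℝ) + 1) / a * zc (3 * a) ρ.im + C2 / a := h2
        linarith
      refine (Finset.sum_le_sum h1).trans (le_of_eq ?_)
      rw [Finset.sum_add_distrib, Finset.sum_add_distrib, Finset.sum_const, Finset.sum_const,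
        ← Finset.mul_sum, nsmul_eq_mul, nsmul_eq_mul]
    have hW : ∑ ρ ∈ S, ∑ ρ' ∈ S, (if ρ = ρ' then 0 else ET a q k0 K (ρ.im - ρ'.im)) ≤
        ((k0 : ℝ) + 1) * (1 / a) *
          (∑ ρ ∈ S, ∑ ρ' ∈ S, (if ρ = ρ' then 0 else (zc r (ρ.im - ρ'.im) : ℝ))) +
        R ^ 2 * (C2 * (1 / a)) := by
      have h1 : ∀ ρ ∈ S, ∀ ρ' ∈ S, (if ρ = ρ' then 0 else ET a q k0 K (ρ.im - ρ'.im)) ≤
          ((k0 : ℝ) + 1) * (1 / a) * (if ρ = ρ' then 0 else (zc r (ρ.im - ρ'.im) : ℝ)) +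
          C2 * (1 / a) := by
        intro ρ hρ ρ' hρ'
        split_ifs with h2
        · rw [mul_zero, zero_add]
          positivity
        · obtain ⟨s1, s2, s3, s4⟩ := hS ρ hρ
          obtain ⟨u1, u2, u3, u4⟩ := hS ρ' hρ'
          have hsp := hsep ρ hρ ρ' hρ' h2
          have hab : |ρ.im - ρ'.im| ≤ 2 * T := by
            have := abs_sub (ρ.im) (ρ'.im)
            linarith
          have h3 := (hL a q (ρ.im - ρ'.im) Λ k0 K ha ha4 hq hq1 hkK hqK (by linarith)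
            (hgv _ hab) hΛk).1
          have h4 : (zc (3 * a) (ρ.im - ρ'.im) : ℝ) ≤ (zc r (ρ.im - ρ'.im) : ℝ) := by
            exact_mod_cast zc_mono ha3 hr _
          have h5 : ((k0 : ℝ) + 1) / a * zc (3 * a) (ρ.im - ρ'.im) ≤
              ((k0 : ℝ) + 1) * (1 / a) * (zc r (ρ.im - ρ'.im) : ℝ) := by
            rw [mul_one_div]
            exact mul_le_mul_of_nonneg_left h4 (by positivity)
          have h6 : C2 / a = C2 * (1 / a) := by ring
          have h7 : ET a q k0 K (ρ.im - ρ'.im) ≤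
              ((k0 : ℝ) + 1) / a * zc (3 * a) (ρ.im - ρ'.im) + C2 / a := h3
          linarith
      refine (Finset.sum_le_sum (fun ρ hρ => Finset.sum_le_sum (fun ρ' hρ' =>
        h1 ρ hρ ρ' hρ'))).trans (le_of_eq ?_)
      simp only [Finset.sum_add_distrib, Finset.sum_const, nsmul_eq_mul, Finset.mul_sum]
      rw [← hR_def]
      ring
    have hinj : Set.InjOn (fun ρ : ℂ => ρ.im) S := by
      intro ρ hρ ρ' hρ' h
      by_contra hne
      have h1 := hsep ρ hρ ρ' hρ' hne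
      have h2 : ρ.im = ρ'.im := h
      rw [h2, sub_self, abs_zero] at h1
      linarith
    have hpos := ma_pos2 ha hq k0 K S hinj
    rw [ma_diag] at hpos
    have hCy : (3 * C1 + 3 * C2) * (1 / a) ≤ 1 / δ / 56 := by
      rw [← hCp, mul_one_div, div_div, div_le_div_iff₀ ha (by positivity)]
      linarith
    have hfin := ma_arith hR2 (by positivity : 0 ≤ 1 / δ) (by positivity : 0 ≤ 1 / a)
      (by linarith : 0 ≤ C1) hE0 hU hW hpos hCy
    set SZ : ℝ := ∑ ρ ∈ S, (zc r ρ.im : ℝ) with hSZ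
    set SS : ℝ := ∑ ρ ∈ S, ∑ ρ' ∈ S, (if ρ = ρ' then 0 else (zc r (ρ.im - ρ'.im) : ℝ)) with hSS
    have hSZ0 : 0 ≤ SZ := Finset.sum_nonneg (fun ρ _ => Nat.cast_nonneg _)
    have hA0 : 0 ≤ SZ / R := div_nonneg hSZ0 hR0.le
    have e1 : 2 * R * SZ + SS = R ^ 2 * (2 * (SZ / R) + SS / R ^ 2) := by
      field_simp
    rw [e1] at hfin
    have hfin2 : 1 / δ / 56 ≤ ((k0 : ℝ) + 1) * (1 / a) * (2 * (SZ / R) + SS / R ^ 2) := by
      have h1 : 0 < R ^ 2 := by positivity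
      have h2 : R ^ 2 * (1 / δ / 56) ≤
          R ^ 2 * (((k0 : ℝ) + 1) * (1 / a) * (2 * (SZ / R) + SS / R ^ 2)) := by
        calc _ ≤ _ := hfin
          _ = _ := by ring
      exact le_of_mul_le_mul_left h2 h1
    have hfin3 : 1 / δ / 56 ≤ C4 * L * (1 / a) * (2 * (SZ / R + SS / R ^ 2)) := by
      refine hfin2.trans ?_
      have h1 : ((k0 : ℝ) + 1) * (1 / a) ≤ C4 * L * (1 / a) :=
        mul_le_mul_of_nonneg_right hk1 (by positivity)
      refine mul_le_mul h1 (by linarith) (by linarith) (by positivity)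
    have hfin4 : r1 * r / (112 * C4 * (δ * L)) ≤ SZ / R + SS / R ^ 2 := by
      rw [div_le_iff₀ (by positivity)]
      have h1 : 1 / δ / 56 * (56 * (a * δ)) ≤
          C4 * L * (1 / a) * (2 * (SZ / R + SS / R ^ 2)) * (56 * (a * δ)) :=
        mul_le_mul_of_nonneg_right hfin3 (by positivity)
      have h2 : 1 / δ / 56 * (56 * (a * δ)) = a := by
        field_simp
      have h3 : C4 * L * (1 / a) * (2 * (SZ / R + SS / R ^ 2)) * (56 * (a * δ)) =
          (SZ / R + SS / R ^ 2) * (112 * C4 * (δ * L)) := by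
        have ha' : a * (1 / a) = 1 := mul_one_div_cancel ha.ne'
        calc C4 * L * (1 / a) * (2 * (SZ / R + SS / R ^ 2)) * (56 * (a * δ)) =
            (a * (1 / a)) * ((SZ / R + SS / R ^ 2) * (112 * C4 * (δ * L))) := by ring
          _ = _ := by rw [ha', one_mul]
      rw [h2, h3] at h1
      exact h1
    refine le_trans ?_ hfin4
    have h1 : r1 / (112 * C4 * Cp) * r / (δ * L) = r1 * r / (112 * C4 * (δ * L)) / Cp := by
      field_simp
    rw [h1]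
    exact div_le_self (by positivity) (by linarith)

theorem mainW : ∃ c C : ℝ, 0 < c ∧ 1 ≤ C ∧ ∀ (r δ T H : ℝ) (S : Finset ℂ), 0 < δ → δ < r →
    r ≤ 1 → C ≤ T →
    (∀ ρ ∈ S, riemannZeta ρ = 0 ∧ 1 - δ ≤ ρ.re ∧ 1 ≤ |ρ.im| ∧ |ρ.im| ≤ T ∧
      (zc r ρ.im : ℝ) ≤ c * r / (δ * Phi r T)) →
    (∀ ρ ∈ S, ∀ ρ' ∈ S, ρ ≠ ρ' → r ≤ |ρ.im - ρ'.im|) →
    (∀ ρ ∈ S, ∀ ρ' ∈ S, |ρ.im - ρ'.im| ≤ H) →
    (S.card : ℝ) ≤ max 1 (C * (δ * Phi r T / r) * zlow r (H + 1)) := by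
  obtain ⟨c, C, hc, hC, h⟩ := mainA
  refine ⟨c / 2, max (max C (6 / c)) (Real.exp (Real.exp 1)), by positivity,
    le_max_of_le_left (le_max_of_le_left hC), ?_⟩
  intro r δ T H S hδ hδr hr hT hS hsep hH
  have hT0 : C ≤ T := ((le_max_left _ _).trans (le_max_left _ _)).trans hT
  have hT2 : Real.exp (Real.exp 1) ≤ T := (le_max_right _ _).trans hT
  obtain ⟨hT3, hlT, hLL, _⟩ := ma_log one_pos (by
    rw [div_one]
    have := Real.one_le_exp (Real.exp_pos 1).le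
    linarith) hT2
  have hr0 : 0 < r := by linarith
  set L : ℝ := Phi r T with hLdef
  have hL0 : 0 < L := by
    apply Real.log_pos
    have : 0 ≤ r ^ (3 / 2 : ℝ) * Real.log T :=
      mul_nonneg (Real.rpow_nonneg hr0.le _) (by linarith)
    linarith
  rcases Nat.lt_or_ge S.card 2 with hcard | hcard
  · refine le_max_of_le_left ?_
    have : S.card ≤ 1 := by omega
    exact_mod_cast this
  · refine le_max_of_le_right ?_
    have h1 := h r δ T S hδ hδr hr hT0 hcard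
      (fun ρ hρ => ⟨(hS ρ hρ).1, (hS ρ hρ).2.1, (hS ρ hρ).2.2.1, (hS ρ hρ).2.2.2.1⟩) hsep
    rw [← hLdef] at h1
    have hR2 : (2 : ℝ) ≤ (S.card : ℝ) := by exact_mod_cast hcard
    set R : ℝ := (S.card : ℝ) with hR_def
    have hR0 : 0 < R := by linarith
    have h2 : (∑ ρ ∈ S, (zc r ρ.im : ℝ)) / R ≤ c / 2 * r / (δ * L) := by
      rw [div_le_iff₀ hR0]
      refine (Finset.sum_le_sum (fun ρ hρ => (hS ρ hρ).2.2.2.2)).trans (le_of_eq ?_)
      rw [Finset.sum_const, nsmul_eq_mul]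
      ring
    have h3 : (∑ ρ ∈ S, ∑ ρ' ∈ S, (if ρ = ρ' then 0 else (zc r (ρ.im - ρ'.im) : ℝ))) ≤
        3 * R * (zlow r (H + 1) : ℝ) := by
      have h4 := zc_zlow' hr S hsep hH
      have h5 : ((∑ ρ ∈ S, ∑ ρ' ∈ S, (if ρ = ρ' then 0 else zc r (ρ.im - ρ'.im)) : ℕ) : ℝ) ≤
          ((3 * S.card * zlow r (H + 1) : ℕ) : ℝ) := by exact_mod_cast h4
      push_cast at h5
      exact h5
    have h6 : (∑ ρ ∈ S, ∑ ρ' ∈ S, (if ρ = ρ' then 0 else (zc r (ρ.im - ρ'.im) : ℝ))) / R ^ 2 ≤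
        3 * (zlow r (H + 1) : ℝ) / R := by
      rw [div_le_div_iff₀ (by positivity) hR0]
      nlinarith [mul_le_mul_of_nonneg_right h3 hR0.le]
    have h7 : c / 2 * r / (δ * L) ≤ 3 * (zlow r (H + 1) : ℝ) / R := by
      have h8 : c * r / (δ * L) = c / 2 * r / (δ * L) + c / 2 * r / (δ * L) := by ring
      linarith
    have h9 : R ≤ 6 / c * (δ * L / r) * (zlow r (H + 1) : ℝ) := by
      rw [div_le_div_iff₀ (by positivity) hR0] at h7
      have h10 : R = (c / 2 * r * R) * (2 / (c * r)) := by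
        field_simp
      have h11 : 6 / c * (δ * L / r) * (zlow r (H + 1) : ℝ) =
          (3 * (zlow r (H + 1) : ℝ) * (δ * L)) * (2 / (c * r)) := by
        field_simp
        ring
      rw [h11]
      calc R = (c / 2 * r * R) * (2 / (c * r)) := h10
        _ ≤ _ := mul_le_mul_of_nonneg_right h7 (by positivity)
    refine h9.trans ?_
    have h12 : 6 / c ≤ max (max C (6 / c)) (Real.exp (Real.exp 1)) :=
      (le_max_right _ _).trans (le_max_left _ _)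
    have h13 : 0 ≤ δ * L / r := by positivity
    exact mul_le_mul_of_nonneg_right (mul_le_mul_of_nonneg_right h12 h13) (Nat.cast_nonneg _)

end Pool.Agent.H52.RK
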