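import Mathlib
import Pool.Agent.H48.UP.Classical
import Pool.Agent.H52.RK.MainAG

/-!
# MainBG: two isolated zeros (Deuring-Heilbronn phenomenon), with Richert's bound

Adapted from `H76/RP/MainB.lean` (helper58) with `locG_pt`.  `x = log V`, `V = c r/(δ₁ Φ)`,
`k = ⌈10 (Φ + x)⌉`: `2^k ≥ X^6 V^6`, `X = e^Φ`.
-/

set_option autoImplicit false

open Complex

namespace Pool.Agent.H52.RK

open Pool.Agent.H76.CR Pool.Agent.H76.RP

private theorem mb_uniq {a r : ℝ} (hr : r ≤ 1) (har : 3 * a ≤ r) {ρ : ℂ} (hρ : riemannZeta ρ = 0)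
    (hd : 1 - ρ.re < r) (hz : zc r ρ.im ≤ 1) :
    analyticOrderNatAt riemannZeta ρ = 1 ∧ ∀ u ∈ disc (3 * a) ρ.im, u = ρ := by
  have h1 : ρ.re < 1 := re_lt_one hρ
  have hmem : ρ ∈ disc r ρ.im := by
    refine ⟨hρ, ?_⟩
    have e : ρ - (1 + ρ.im * I) = ((ρ.re - 1 : ℝ) : ℂ) := by
      apply Complex.ext <;> simp
    rw [e, Complex.norm_real, Real.norm_eq_abs, abs_of_neg (by linarith)]
    linarith
  have h2 := ord_pos hρ
  refine ⟨?_, ?_⟩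
  · have h3 := zc_ge hr ρ.im {ρ} (by
      intro u hu
      rw [Finset.mem_singleton] at hu
      rw [hu]
      exact hmem)
    rw [Finset.sum_singleton] at h3
    omega
  · intro u hu
    by_contra hne
    have hu' : u ∈ disc r ρ.im := ⟨hu.1, lt_of_lt_of_le hu.2 har⟩
    have h3 := zc_ge hr ρ.im {u, ρ} (by
      intro z hz
      rw [Finset.mem_insert, Finset.mem_singleton] at hz
      rcases hz with h | h
      · rw [h]; exact hu'
      · rw [h]; exact hmem)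
    rw [Finset.sum_pair hne] at h3
    have h4 := ord_pos hu.1
    omega

private theorem mb_empty {a r t : ℝ} (hr : r ≤ 1) (har : 3 * a ≤ r) (hz : zc r t = 0) : disc (3 * a) t = ∅ := by
  rw [Set.eq_empty_iff_forall_notMem]
  intro u hu
  have h3 := zc_ge hr t {u} (by
    intro z hz
    rw [Finset.mem_singleton] at hz
    rw [hz]
    exact ⟨hu.1, lt_of_lt_of_le hu.2 har⟩)
  rw [Finset.sum_singleton] at h3
  have h4 := ord_pos hu.1
  omega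

/-- the numerical end of the proof -/
private theorem mb_num {p1 p2 E E' η x0 : ℝ} {X1 X2 X3 : ℂ} (hη : 0 < η) (hE0 : 0 ≤ E) (hE : E ≤ η) (hE' : E' ≤ η)
    (hE'4 : E' ≤ 1 / 4) (hx0 : 0 ≤ x0) (hx : |x0 - 1| ≤ E') (h1 : ‖X1 + (p1 : ℂ)‖ ≤ E) (h2 : ‖X2 + (p2 : ℂ)‖ ≤ E)
    (h3 : ‖X3‖ ≤ E) (hp1 : 1 - η ≤ p1) (hp2 : 0 ≤ p2) (hp2' : p2 ≤ 1)
    (hv : ‖X2 + X3‖ ^ 2 ≤ x0 * (2 * x0 + 2 * X1.re)) : p2 ^ 2 ≤ 25 * η := by
  have hre : X1.re ≤ -p1 + E := by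
    have h4 : |(X1 + (p1 : ℂ)).re| ≤ ‖X1 + (p1 : ℂ)‖ := Complex.abs_re_le_norm _
    rw [Complex.add_re, Complex.ofReal_re] at h4
    have h5 := (abs_le.1 (h4.trans h1)).2
    linarith
  have hx1 := (abs_le.1 hx).2
  have hU : 2 * x0 + 2 * X1.re ≤ 6 * η := by linarith
  have hv2 : ‖X2 + X3‖ ^ 2 ≤ 15 / 2 * η := by
    have h6 : x0 * (2 * x0 + 2 * X1.re) ≤ x0 * (6 * η) := mul_le_mul_of_nonneg_left hU hx0
    have h7 : x0 * (6 * η) ≤ 5 / 4 * (6 * η) := mul_le_mul_of_nonneg_right (by linarith) (by linarith)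
    linarith
  have hp : p2 ≤ 2 * E + ‖X2 + X3‖ := by
    have e : ((p2 : ℝ) : ℂ) = (X2 + (p2 : ℂ)) - (X2 + X3) + X3 := by ring
    have h8 : ‖((p2 : ℝ) : ℂ)‖ ≤ ‖X2 + (p2 : ℂ)‖ + ‖X2 + X3‖ + ‖X3‖ := by
      calc ‖((p2 : ℝ) : ℂ)‖ = ‖(X2 + (p2 : ℂ)) - (X2 + X3) + X3‖ := by rw [← e]
        _ ≤ ‖(X2 + (p2 : ℂ)) - (X2 + X3)‖ + ‖X3‖ := norm_add_le _ _
        _ ≤ ‖X2 + (p2 : ℂ)‖ + ‖X2 + X3‖ + ‖X3‖ := by
          have := norm_sub_le (X2 + (p2 : ℂ)) (X2 + X3)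
          linarith
    rw [Complex.norm_real, Real.norm_eq_abs, abs_of_nonneg hp2] at h8
    linarith
  by_cases h9 : η ≤ 1
  · set w := Real.sqrt η with hw
    have hw0 : 0 ≤ w := Real.sqrt_nonneg η
    have hww : w ^ 2 = η := Real.sq_sqrt hη.le
    have hw1 : w ≤ 1 := by
      rw [hw]
      exact Real.sqrt_le_one.2 h9
    have hEw : E ≤ w := by nlinarith
    have hs : ‖X2 + X3‖ ≤ 14 / 5 * w := by
      refine (sq_le_sq₀ (norm_nonneg _) (by positivity)).1 ?_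
      nlinarith
    have hp3 : p2 ≤ 24 / 5 * w := by linarith
    nlinarith
  · push Not at h9
    nlinarith

/-- the level -/
private theorem b_level {X V ℓ x : ℝ} (hX : 3 ≤ X) (hℓ : Real.log X = ℓ) (hℓ1 : 1 ≤ ℓ)
    (hV : 1 < V) (hx : Real.log V = x) (hx0 : 0 < x) :
    ∃ k : ℕ, X ^ 3 * V ≤ (2 : ℝ) ^ k ∧ (k : ℝ) + 1 ≤ 12 * (ℓ + x) := by
  refine ⟨⌈10 * (ℓ + x)⌉₊, ?_, ?_⟩
  · have hk1 : 10 * (ℓ + x) ≤ (⌈10 * (ℓ + x)⌉₊ : ℝ) := Nat.le_ceil _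
    have h1 : Real.log (X ^ 3 * V) ≤ Real.log ((2 : ℝ) ^ ⌈10 * (ℓ + x)⌉₊) := by
      rw [Real.log_mul (by positivity) (by positivity), Real.log_pow, Real.log_pow, hℓ, hx]
      have h2 := Real.log_two_gt_d9
      have h3 : (⌈10 * (ℓ + x)⌉₊ : ℝ) * 0.6 ≤ ⌈10 * (ℓ + x)⌉₊ * Real.log 2 :=
        mul_le_mul_of_nonneg_left (by linarith) (Nat.cast_nonneg _)
      push_cast
      linarith
    exact (Real.log_le_log_iff (by positivity) (by positivity)).1 h1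
  · have hk2 : (⌈10 * (ℓ + x)⌉₊ : ℝ) < 10 * (ℓ + x) + 1 := Nat.ceil_lt_add_one (by linarith)
    linarith

/-- the error terms -/
private theorem b_err {Cl C3 Cd X V ℓ : ℝ} {k : ℕ} (hCl : 0 ≤ Cl * C3) (hCd : 0 ≤ Cd)
    (hX : 3 ≤ X) (hV : 1 ≤ V) (hℓ1 : 1 ≤ ℓ) (hℓX : ℓ ≤ X) (hb1 : 600 * (Cl * C3) ≤ X)
    (hb2 : 600 * Cd ≤ X) (hk : X ^ 3 * V ≤ (2 : ℝ) ^ k) :
    Cl * (C3 * X) / 2 ^ (k + 1) ≤ 1 / (600 * V * ℓ) ∧ Cd / 2 ^ k ≤ 1 / (600 * V * ℓ) ∧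
      Cd / 2 ^ k ≤ 1 / 4 := by
  have hX0 : 0 < X := by linarith
  have hV0 : 0 < V := by linarith
  have hℓ0 : 0 < ℓ := by linarith
  have hkp : (0 : ℝ) < 2 ^ k := by positivity
  have hX1 : 1 ≤ X := by linarith
  refine ⟨?_, ?_, ?_⟩
  · rw [div_le_div_iff₀ (by positivity) (by positivity), pow_succ]
    calc Cl * (C3 * X) * (600 * V * ℓ) = (600 * (Cl * C3)) * X * V * ℓ := by ring
      _ ≤ X * X * V * X := by gcongr
      _ = X ^ 3 * V := by ring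
      _ ≤ 2 ^ k := hk
      _ ≤ 1 * (2 ^ k * 2) := by linarith
  · rw [div_le_div_iff₀ (by positivity) (by positivity)]
    calc Cd * (600 * V * ℓ) = (600 * Cd) * V * ℓ := by ring
      _ ≤ X * V * X := by gcongr
      _ = 1 * (X ^ 2 * V) := by ring
      _ ≤ X * (X ^ 2 * V) := by gcongr
      _ = X ^ 3 * V := by ring
      _ ≤ 1 * 2 ^ k := by rw [one_mul]; exact hk
  · rw [div_le_div_iff₀ (by positivity) (by norm_num)]
    have h1 : X ≤ X ^ 3 * V := by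
      calc X = X ^ 1 * 1 := by ring
        _ ≤ X ^ 3 * V :=
          mul_le_mul (pow_le_pow_right₀ hX1 (by norm_num)) hV zero_le_one (by positivity)
    linarith

/-- the vector inequality -/
private theorem b_key {a E E' η δ₁ δ₂ t₁ t₂ : ℝ} (ha0 : 0 < a) (k : ℕ) (hd1 : 0 < δ₁)
    (hd2 : 0 < δ₂) (hA1 : δ₁ < a) (hη : η = (k + 1) * δ₁ / a) (hE0 : 0 ≤ E) (hEη : E ≤ η)
    (hE'η : E' ≤ η) (hE'4 : E' ≤ 1 / 4) (hx0 : |a ^ (k + 1) * (∑' n : ℕ, dco a k n) - 1| ≤ E')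
    (h1 : ‖(a : ℂ) ^ (k + 1) * Dk a k t₁ + (((a / (a + δ₁)) ^ (k + 1) : ℝ) : ℂ)‖ ≤ E)
    (h2 : ‖(a : ℂ) ^ (k + 1) * Dk a k t₂ + (((a / (a + δ₂)) ^ (k + 1) : ℝ) : ℂ)‖ ≤ E)
    (h3 : a ^ (k + 1) * ‖Dk a k (t₂ - t₁)‖ ≤ E) :
    Real.exp (-(2 * ((k + 1) * δ₂ / a))) ≤ 25 * η := by
  have hηpos : 0 < η := by rw [hη]; positivity
  have hak : 0 < a ^ (k + 1) := by positivity
  have hd00 : dco a k 0 = 0 := by unfold dco; simp
  have hvec := vecT (dco a k) (dco_nonneg a k) hd00 (summable_dco ha0 k) t₁ t₂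
  have hD0 : 0 ≤ ∑' n : ℕ, dco a k n := tsum_nonneg (dco_nonneg a k)
  set p1 : ℝ := (a / (a + δ₁)) ^ (k + 1) with hp1
  set p2 : ℝ := (a / (a + δ₂)) ^ (k + 1) with hp2
  have hp2pos : 0 < p2 := by positivity
  have hp2one : p2 ≤ 1 := by
    rw [hp2]
    apply pow_le_one₀ (by positivity)
    rw [div_le_one (by positivity)]
    linarith
  have hp1low : 1 - η ≤ p1 := by
    have h1 : 1 - δ₁ / a ≤ a / (a + δ₁) := by
      rw [le_div_iff₀ (by positivity)]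
      have : (1 - δ₁ / a) * (a + δ₁) = a - δ₁ ^ 2 / a := by field_simp; ring
      rw [this]
      have : 0 ≤ δ₁ ^ 2 / a := by positivity
      linarith
    have h2 : -2 ≤ -(δ₁ / a) := by
      have : δ₁ / a ≤ 1 := by rw [div_le_one ha0]; exact hA1.le
      linarith
    have h3 := one_add_mul_le_pow h2 (k + 1)
    have h4 : (1 + -(δ₁ / a)) ^ (k + 1) ≤ p1 := by
      rw [hp1]
      apply pow_le_pow_left₀ _ (by linarith)
      have : δ₁ / a ≤ 1 := by rw [div_le_one ha0]; exact hA1.le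
      linarith
    have h5 : 1 + ((k + 1 : ℕ) : ℝ) * -(δ₁ / a) = 1 - η := by
      rw [hη]
      push_cast
      ring
    linarith
  have key : p2 ^ 2 ≤ 25 * η := by
    refine mb_num (X1 := (a : ℂ) ^ (k + 1) * Dk a k t₁) (X2 := (a : ℂ) ^ (k + 1) * Dk a k t₂)
      (X3 := (a : ℂ) ^ (k + 1) * Dk a k (t₂ - t₁)) (x0 := a ^ (k + 1) * ∑' n : ℕ, dco a k n)
      hηpos hE0 hEη hE'η hE'4 (by positivity) hx0 h1 h2 ?_ hp1low hp2pos.le hp2one ?_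
    · rw [norm_mul, norm_pow, Complex.norm_real, Real.norm_eq_abs, abs_of_pos ha0]
      exact h3
    · have e1 : (a : ℂ) ^ (k + 1) * Dk a k t₂ + (a : ℂ) ^ (k + 1) * Dk a k (t₂ - t₁) =
          (a : ℂ) ^ (k + 1) * (Dk a k t₂ + Dk a k (t₂ - t₁)) := by ring
      have e2 : ((a : ℂ) ^ (k + 1) * Dk a k t₁).re = a ^ (k + 1) * (Dk a k t₁).re := by
        rw [← Complex.ofReal_pow, Complex.re_ofReal_mul]
      rw [e1, e2, norm_mul, norm_pow, Complex.norm_real, Real.norm_eq_abs, abs_of_pos ha0, mul_pow]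
      have e3 : a ^ (k + 1) * (∑' n : ℕ, dco a k n) * (2 * (a ^ (k + 1) * ∑' n : ℕ, dco a k n) +
          2 * (a ^ (k + 1) * (Dk a k t₁).re)) = (a ^ (k + 1)) ^ 2 * ((∑' n : ℕ, dco a k n) *
            (2 * (∑' n : ℕ, dco a k n) + 2 * (Dk a k t₁).re)) := by ring
      rw [e3]
      exact mul_le_mul_of_nonneg_left hvec (by positivity)
  refine le_trans ?_ key
  have h1 : Real.exp (-(δ₂ / a)) ≤ a / (a + δ₂) := by
    rw [Real.exp_neg, inv_le_comm₀ (Real.exp_pos _) (by positivity), inv_div]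
    have h2 := Real.add_one_le_exp (δ₂ / a)
    have h3 : (a + δ₂) / a = δ₂ / a + 1 := by field_simp; ring
    linarith
  have h4 : Real.exp (-(2 * ((k + 1) * δ₂ / a))) = (Real.exp (-(δ₂ / a)) ^ (k + 1)) ^ 2 := by
    rw [← Real.exp_nat_mul, ← Real.exp_nat_mul]
    congr 1
    push_cast
    ring
  rw [h4, hp2]
  apply pow_le_pow_left₀ (by positivity)
  exact pow_le_pow_left₀ (Real.exp_pos _).le h1 _

/-- the conclusion -/
private theorem b_end {a V ℓ x δ₁ δ₂ : ℝ} {k : ℕ} (ha0 : 0 < a) (hV : 1 < V) (hℓ1 : 1 ≤ ℓ)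
    (hx : Real.log V = x) (hx0 : 0 < x) (hd2 : 0 < δ₂) (hδV : δ₁ = a / (600 * V * ℓ))
    (hkx : (k : ℝ) + 1 ≤ 12 * (ℓ + x))
    (hexp : Real.exp (-(2 * ((k + 1) * δ₂ / a))) ≤ 25 * ((k + 1) * δ₁ / a)) :
    a / 600 * min 1 (x / ℓ) ≤ δ₂ := by
  have hV0 : 0 < V := by linarith
  have hℓ0 : 0 < ℓ := by linarith
  have hηx : 25 * ((k + 1) * δ₁ / a) ≤ Real.exp (-(x / 2)) := by
    have h1 : (k + 1) * δ₁ / a ≤ 12 * (ℓ + x) / (600 * V * ℓ) := by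
      rw [hδV]
      have h2 : (k + 1) * (a / (600 * V * ℓ)) / a = (k + 1) / (600 * V * ℓ) := by
        field_simp
      rw [h2]
      exact div_le_div_of_nonneg_right hkx (by positivity)
    have h3 : 25 * (12 * (ℓ + x) / (600 * V * ℓ)) = (1 / 2) * ((ℓ + x) / ℓ) / V := by
      field_simp
      ring
    have h4 : (ℓ + x) / ℓ ≤ 1 + x := by
      rw [div_le_iff₀ (by linarith)]
      nlinarith
    have h5 : (1 / 2) * (1 + x) ≤ Real.exp (x / 2) := by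
      have := Real.add_one_le_exp (x / 2)
      linarith
    have h6 : V = Real.exp (x / 2) * Real.exp (x / 2) := by
      rw [← Real.exp_add, add_halves, ← hx, Real.exp_log hV0]
    calc 25 * ((k + 1) * δ₁ / a) ≤ 25 * (12 * (ℓ + x) / (600 * V * ℓ)) := by linarith
      _ = (1 / 2) * ((ℓ + x) / ℓ) / V := h3
      _ ≤ (1 / 2) * (1 + x) / V := by gcongr
      _ ≤ Real.exp (x / 2) / V := by gcongr
      _ = Real.exp (-(x / 2)) := by
          rw [Real.exp_neg, div_eq_iff hV0.ne', h6]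
          have := (Real.exp_pos (x / 2)).ne'
          field_simp
  have hlog : x / 2 ≤ 2 * ((k + 1) * δ₂ / a) := by
    have h1 := Real.exp_le_exp.1 (hexp.trans hηx)
    linarith
  have hfin : x / (48 * (ℓ + x)) * a ≤ δ₂ := by
    have h1 : x / 4 * a ≤ (k + 1) * δ₂ := by
      have h2 : x / 4 ≤ (k + 1) * δ₂ / a := by linarith
      rwa [le_div_iff₀ ha0] at h2
    have h3 : (k + 1) * δ₂ ≤ 12 * (ℓ + x) * δ₂ := mul_le_mul_of_nonneg_right hkx hd2.le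
    have h4 : x / (48 * (ℓ + x)) * a = (x / 4 * a) / (12 * (ℓ + x)) := by
      field_simp
      ring
    rw [h4, div_le_iff₀ (by positivity)]
    linarith
  refine le_trans ?_ hfin
  have hm : min 1 (x / ℓ) ≤ 2 * (x / (ℓ + x)) := by
    rcases le_total x ℓ with h | h
    · refine (min_le_right _ _).trans ?_
      rw [div_le_iff₀ (by linarith)]
      have : 2 * (x / (ℓ + x)) * ℓ = x * (2 * ℓ / (ℓ + x)) := by ring
      rw [this]
      have h2 : 1 ≤ 2 * ℓ / (ℓ + x) := by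
        rw [le_div_iff₀ (by linarith)]
        linarith
      nlinarith
    · refine (min_le_left _ _).trans ?_
      have h2 : 1 / 2 ≤ x / (ℓ + x) := by
        rw [le_div_iff₀ (by linarith)]
        linarith
      linarith
  have h7 : 0 ≤ x / (ℓ + x) := by positivity
  have h8 : 0 ≤ a * (x / (ℓ + x)) := by positivity
  calc a / 600 * min 1 (x / ℓ) ≤ a / 600 * (2 * (x / (ℓ + x))) :=
        mul_le_mul_of_nonneg_left hm (by positivity)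
    _ = a * (x / (ℓ + x)) / 300 := by ring
    _ ≤ a * (x / (ℓ + x)) / 48 := by linarith
    _ = x / (48 * (ℓ + x)) * a := by
        field_simp

theorem mainB : ∃ c C : ℝ, 0 < c ∧ 1 ≤ C ∧ ∀ (r T : ℝ) (ρ₁ ρ₂ : ℂ), 0 < r → r ≤ 1 → C ≤ T →
    riemannZeta ρ₁ = 0 → riemannZeta ρ₂ = 0 → 0 < ρ₁.re → 0 < ρ₂.re →
    1 ≤ |ρ₁.im| → |ρ₁.im| ≤ T → 1 ≤ |ρ₂.im| → |ρ₂.im| ≤ T → r ≤ |ρ₂.im - ρ₁.im| →
    zc r ρ₁.im ≤ 1 → zc r ρ₂.im ≤ 1 → zc r (ρ₂.im - ρ₁.im) = 0 →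
    c * r * min 1 (Real.log (c * r / ((1 - ρ₁.re) * Phi r T)) / Phi r T) ≤ 1 - ρ₂.re := by
  obtain ⟨c0, hc0, hcl⟩ := Pool.Agent.H48.UP.classical
  obtain ⟨r1, Cd, hr1, hr1', hCd, hdk⟩ := dk0
  obtain ⟨Cl, hCl, hloc⟩ := locG_pt
  obtain ⟨C3, hC3def⟩ : ∃ C3 : ℝ, C3 = 4 + Real.log (1 / r1) + |Real.log (2 / c0)| := ⟨_, rfl⟩
  have hb1 : 0 ≤ Real.log (1 / r1) := Real.log_nonneg (by rw [le_div_iff₀ hr1]; linarith)
  have hb2 : 0 ≤ |Real.log (2 / c0)| := abs_nonneg _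
  have hC31 : 1 ≤ C3 := by linarith
  have hCC : 1 ≤ Cl * C3 := by nlinarith
  obtain ⟨L0, hL0⟩ : ∃ L0 : ℝ, L0 = 600 * (Cl * C3) + 600 * Cd := ⟨_, rfl⟩
  have hL01 : 1 ≤ L0 := by linarith
  refine ⟨r1 / 600, Real.exp (Real.exp L0), by positivity,
    Real.one_le_exp (Real.exp_pos _).le, ?_⟩
  intro r T ρ₁ ρ₂ hr hr' hT hz1 hz2 hre1 hre2 him1 him1' him2 him2' hdif hzc1 hzc2 hzc0
  have hTpos : 0 < T := lt_of_lt_of_le (Real.exp_pos _) hT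
  have hT2 : Real.exp (Real.exp 1) ≤ T := (Real.exp_le_exp.2 (Real.exp_le_exp.2 hL01)).trans hT
  have hlT : Real.exp L0 ≤ Real.log T := by rw [Real.le_log_iff_exp_le hTpos]; exact hT
  have hlT0 : 0 < Real.log T := lt_of_lt_of_le (Real.exp_pos _) hlT
  have hLL : L0 ≤ Real.log (Real.log T) := by rw [Real.le_log_iff_exp_le hlT0]; exact hlT
  have hT3 : 3 ≤ T := by
    have e1 := Real.add_one_le_exp (1 : ℝ)
    have e2 := Real.add_one_le_exp (Real.exp 1)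
    linarith
  obtain ⟨X, hXdef⟩ : ∃ X : ℝ, X = 2 + r ^ (3 / 2 : ℝ) * Real.log T + Real.log (Real.log T) :=
    ⟨_, rfl⟩
  have hrl : 0 ≤ r ^ (3 / 2 : ℝ) * Real.log T :=
    mul_nonneg (Real.rpow_nonneg hr.le _) hlT0.le
  have hXL : L0 ≤ X := by linarith
  have hX3 : 3 ≤ X := by linarith
  have hX0 : 0 < X := by linarith
  have hℓX0 : Phi r T = Real.log X := by rw [hXdef]; rfl
  rw [hℓX0]
  obtain ⟨ℓ, hℓX⟩ : ∃ ℓ : ℝ, Real.log X = ℓ := ⟨_, rfl⟩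
  rw [hℓX]
  have hℓ1 : 1 ≤ ℓ := by
    rw [← hℓX, Real.le_log_iff_exp_le hX0]
    have := Real.exp_one_lt_d9
    linarith
  have hℓleX : ℓ ≤ X := by
    have := Real.log_le_sub_one_of_pos hX0
    linarith
  obtain ⟨a, ha⟩ : ∃ a : ℝ, a = r1 * r := ⟨_, rfl⟩
  have ha0 : 0 < a := by rw [ha]; positivity
  have har1 : a ≤ r1 := by
    rw [ha]
    nlinarith
  have ha4 : a ≤ 1 / 6 := by linarith
  have h3a : 3 * a ≤ r := by
    rw [ha]
    nlinarith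
  have hca : r1 / 600 * r = a / 600 := by rw [ha]; ring
  rw [hca]
  obtain ⟨δ₁, hδ1⟩ : ∃ δ₁ : ℝ, δ₁ = 1 - ρ₁.re := ⟨_, rfl⟩
  obtain ⟨δ₂, hδ2⟩ : ∃ δ₂ : ℝ, δ₂ = 1 - ρ₂.re := ⟨_, rfl⟩
  rw [← hδ1, ← hδ2]
  have hd1 : 0 < δ₁ := by have := re_lt_one hz1; linarith
  have hd2 : 0 < δ₂ := by have := re_lt_one hz2; linarith
  have hδℓ : 0 < δ₁ * ℓ := mul_pos hd1 (by linarith)
  obtain ⟨V, hV⟩ : ∃ V : ℝ, V = a / 600 / (δ₁ * ℓ) := ⟨_, rfl⟩
  rw [← hV]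
  have hV0 : 0 < V := by rw [hV]; positivity
  obtain ⟨x, hx⟩ : ∃ x : ℝ, Real.log V = x := ⟨_, rfl⟩
  rw [hx]
  have ha600 : 0 < a / 600 := by positivity
  by_cases hx0 : x ≤ 0
  · have h1 : x / ℓ ≤ 0 := div_nonpos_of_nonpos_of_nonneg hx0 (by linarith)
    have h2 : min 1 (x / ℓ) ≤ 0 := (min_le_right _ _).trans h1
    have h3 : a / 600 * min 1 (x / ℓ) ≤ 0 := mul_nonpos_of_nonneg_of_nonpos ha600.le h2
    linarith
  push Not at hx0
  have hV1 : 1 < V := by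
    by_contra hcon
    push Not at hcon
    have := Real.log_nonpos hV0.le hcon
    linarith
  have hδV : δ₁ = a / (600 * V * ℓ) := by
    rw [hV]
    field_simp
  have hA1 : δ₁ < a := by
    rw [hδV, div_lt_iff₀ (by positivity)]
    have h1 : 1 < V * ℓ := by nlinarith
    have h2 : a * 1 < a * (V * ℓ) := mul_lt_mul_of_pos_left h1 ha0
    have h3 : 0 < a * (V * ℓ) := by linarith
    linarith
  by_cases hA2 : δ₂ < a
  swap
  · push Not at hA2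
    have h1 : a / 600 * min 1 (x / ℓ) ≤ a / 600 * 1 :=
      mul_le_mul_of_nonneg_left (min_le_left _ _) ha600.le
    linarith
  have hδ0 : c0 / (2 * Real.log T) ≤ δ₁ := by
    have h1 := hcl ρ₁ hz1 hre1
    have h2 : 0 < Real.log (2 + |ρ₁.im|) := Real.log_pos (by linarith)
    have h3 : Real.log (2 + |ρ₁.im|) ≤ 2 * Real.log T := by
      have h4 : 2 + |ρ₁.im| ≤ T ^ 2 := by nlinarith
      have h5 := Real.log_le_log (by linarith) h4
      rw [Real.log_pow] at h5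
      push_cast at h5
      exact h5
    have h6 : c0 / (2 * Real.log T) ≤ c0 / Real.log (2 + |ρ₁.im|) :=
      div_le_div_of_nonneg_left hc0.le h2 h3
    linarith
  have hgv : ∀ t : ℝ, |t| ≤ 2 * T → gv a t ≤ C3 * X := by
    intro t ht
    have := gv_le hc0 hr1 (by linarith) (by linarith : δ₁ < r) hr' hT2 hδ0 ht
    rw [← hC3def, ← hXdef, ← ha] at this
    exact this
  obtain ⟨ho1, hu1⟩ := mb_uniq hr' h3a hz1 (by linarith) hzc1
  obtain ⟨ho2, hu2⟩ := mb_uniq hr' h3a hz2 (by linarith) hzc2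
  have he3 := mb_empty hr' h3a hzc0
  obtain ⟨k, hk, hkx⟩ := b_level hX3 hℓX hℓ1 hV1 hx hx0
  obtain ⟨e1, e2, e3⟩ := b_err (Cl := Cl) (C3 := C3) (Cd := Cd) (by linarith) (by linarith) hX3
    hV1.le hℓ1 hℓleX (by linarith) (by linarith) hk
  have hηlow : 1 / (600 * V * ℓ) ≤ (k + 1) * δ₁ / a := by
    rw [hδV]
    have h1 : (k + 1) * (a / (600 * V * ℓ)) / a = (k + 1) * (1 / (600 * V * ℓ)) := by
      field_simp
    rw [h1]
    have h2 : 0 ≤ 1 / (600 * V * ℓ) := by positivity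
    have h3 : (0 : ℝ) ≤ k := Nat.cast_nonneg k
    nlinarith
  have hdT : |ρ₂.im - ρ₁.im| ≤ 2 * T := by
    have := abs_sub ρ₂.im ρ₁.im
    linarith
  have hX1' := (hloc a ρ₁.im (C3 * X) k ha0 ha4 (by linarith) (hgv _ (by linarith))).2
    ρ₁ hz1 rfl (by linarith) hu1
  have hX2' := (hloc a ρ₂.im (C3 * X) k ha0 ha4 (by linarith) (hgv _ (by linarith))).2
    ρ₂ hz2 rfl (by linarith) hu2
  have hX3' := (hloc a (ρ₂.im - ρ₁.im) (C3 * X) k ha0 ha4 (by linarith) (hgv _ hdT)).1 he3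
  rw [ho1, Nat.cast_one, one_mul, ← hδ1] at hX1'
  rw [ho2, Nat.cast_one, one_mul, ← hδ2] at hX2'
  have hE0 : 0 ≤ Cl * (C3 * X) / 2 ^ (k + 1) := by positivity
  have hexp := b_key ha0 k hd1 hd2 hA1 rfl hE0 (e1.trans hηlow) (e2.trans hηlow) e3
    (hdk a k ha0 har1) hX1' hX2' hX3'
  exact b_end ha0 hV1 hℓ1 hx hx0 hd2 hδV hkx hexp

end Pool.Agent.H52.RK
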